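import Mathlib

/-!
# A certificate checker for sign systems

`E m` is a real number attached to each set `m` of indices (coded by its bit mask).  A certificate
is a binary tree of deduction steps, each step being coded by one natural number.
-/

namespace Pool.Agent.Lib.MP_1c334d_co

/-- `r`-th base 16 digit -/
def dg (z r : ℕ) : ℕ := (z >>> (4 * r)) % 16

/-- the first six digits are increasing and less than `b` -/
def valid (b z : ℕ) : Bool :=
  Nat.blt (dg z 0) (dg z 1) && Nat.blt (dg z 1) (dg z 2) && Nat.blt (dg z 2) (dg z 3) &&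
  Nat.blt (dg z 3) (dg z 4) && Nat.blt (dg z 4) (dg z 5) && Nat.blt (dg z 5) b

/-- the mask of the set of the first six digits -/
def Mk (z : ℕ) : ℕ :=
  2 ^ dg z 0 + 2 ^ dg z 1 + 2 ^ dg z 2 + 2 ^ dg z 3 + 2 ^ dg z 4 + 2 ^ dg z 5

/-- the mask with the `r`-th element removed -/
def mi (z r : ℕ) : ℕ := Mk z - 2 ^ dg z r

/-- the mask used in the three term relations -/
def ni (z i j k r : ℕ) : ℕ := Mk z - 2 ^ dg z i - 2 ^ dg z j - 2 ^ dg z k + 2 ^ dg z r + 2 ^ 14

/-- signed value -/
def lam (E : ℕ → ℝ) (z r : ℕ) : ℝ := if r % 2 = 0 then E (mi z r) else - E (mi z r)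

/-- the properties of the sign system used by the checker -/
structure Sys (E : ℕ → ℝ) (fl : List ℕ) : Prop where
  nz : ∀ m, E m ≠ 0
  axB : ∀ z, valid 15 z = true → ∀ i j k l, i < 6 → j < 6 → k < 6 → l < 6 →
    i ≠ j → i ≠ k → i ≠ l → j ≠ k → j ≠ l → k ≠ l →
    (0 < lam E z j → 0 < lam E z k → 0 < lam E z l → lam E z i < 0) ∧
    (lam E z j < 0 → lam E z k < 0 → lam E z l < 0 → 0 < lam E z i)
  axF : ∀ z, valid 14 z = true → ∀ i j, i < 6 → j < 6 → i ≠ j →
    Mk z - 2 ^ dg z i - 2 ^ dg z j ∈ fl →
    (0 < lam E z j → lam E z i < 0) ∧ (lam E z j < 0 → 0 < lam E z i)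
  axG : ∀ z, valid 14 z = true → ∀ i j k, i < j → j < k → k < 6 →
    E (mi z i) * E (ni z i j k i) - E (mi z j) * E (ni z i j k j)
      + E (mi z k) * E (ni z i j k k) = 0

/-- known positive -/
def kp (P N z r : ℕ) : Bool :=
  bif Nat.beq (r % 2) 0 then Nat.testBit P (mi z r) else Nat.testBit N (mi z r)

/-- known negative -/
def kn (P N z r : ℕ) : Bool :=
  bif Nat.beq (r % 2) 0 then Nat.testBit N (mi z r) else Nat.testBit P (mi z r)

/-- record a positive value -/
def sp (P N z r : ℕ) : ℕ × ℕ :=
  bif Nat.beq (r % 2) 0 then (P ||| 2 ^ mi z r, N) else (P, N ||| 2 ^ mi z r)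

/-- record a negative value -/
def sn (P N z r : ℕ) : ℕ × ℕ :=
  bif Nat.beq (r % 2) 0 then (P, N ||| 2 ^ mi z r) else (P ||| 2 ^ mi z r, N)

/-- product of the values at two masks known positive -/
def pp (P N a b : ℕ) : Bool :=
  (Nat.testBit P a && Nat.testBit P b) || (Nat.testBit N a && Nat.testBit N b)

/-- product of the values at two masks known negative -/
def pn (P N a b : ℕ) : Bool :=
  (Nat.testBit P a && Nat.testBit N b) || (Nat.testBit N a && Nat.testBit P b)

/-- record that the product of the values at `a` and `b` is positive, the sign of `a` known -/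
def gp (P N a b : ℕ) : Option (ℕ × ℕ) :=
  bif Nat.testBit P a then some (P ||| 2 ^ b, N) else
  bif Nat.testBit N a then some (P, N ||| 2 ^ b) else none

/-- record that the product of the values at `a` and `b` is negative, the sign of `a` known -/
def gn (P N a b : ℕ) : Option (ℕ × ℕ) :=
  bif Nat.testBit P a then some (P, N ||| 2 ^ b) else
  bif Nat.testBit N a then some (P ||| 2 ^ b, N) else none

/-- step of the first kind -/
def stepB (z : ℕ) (P N : ℕ) (i j k l : ℕ) : Option (ℕ × ℕ) :=
  bif valid 15 z && Nat.blt i 6 && Nat.blt j 6 && Nat.blt k 6 && Nat.blt l 6 &&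
    !(Nat.beq i j) && !(Nat.beq i k) && !(Nat.beq i l) && !(Nat.beq j k) && !(Nat.beq j l) &&
    !(Nat.beq k l) then
    (bif kp P N z j && kp P N z k && kp P N z l then some (sn P N z i) else
     bif kn P N z j && kn P N z k && kn P N z l then some (sp P N z i) else none)
  else none

/-- step of the second kind -/
def stepF (fl : List ℕ) (z : ℕ) (P N : ℕ) (i j : ℕ) : Option (ℕ × ℕ) :=
  bif valid 14 z && Nat.blt i 6 && Nat.blt j 6 && !(Nat.beq i j) &&
    fl.any (fun a => Nat.beq a (Mk z - 2 ^ dg z i - 2 ^ dg z j)) then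
    (bif kp P N z j then some (sn P N z i) else
     bif kn P N z j then some (sp P N z i) else none)
  else none

/-- step of the third kind -/
def stepG (z : ℕ) (P N : ℕ) (i j k w : ℕ) : Option (ℕ × ℕ) :=
  bif valid 14 z && Nat.blt i j && Nat.blt j k && Nat.blt k 6 then
    match w with
    | 0 =>
      bif pn P N (mi z j) (ni z i j k j) && pp P N (mi z k) (ni z i j k k) then
        gn P N (mi z i) (ni z i j k i) else
      bif pp P N (mi z j) (ni z i j k j) && pn P N (mi z k) (ni z i j k k) then
        gp P N (mi z i) (ni z i j k i) else none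
    | 1 =>
      bif pp P N (mi z i) (ni z i j k i) && pp P N (mi z k) (ni z i j k k) then
        gp P N (mi z j) (ni z i j k j) else
      bif pn P N (mi z i) (ni z i j k i) && pn P N (mi z k) (ni z i j k k) then
        gn P N (mi z j) (ni z i j k j) else none
    | _ =>
      bif pp P N (mi z i) (ni z i j k i) && pn P N (mi z j) (ni z i j k j) then
        gn P N (mi z k) (ni z i j k k) else
      bif pn P N (mi z i) (ni z i j k i) && pp P N (mi z j) (ni z i j k j) then
        gp P N (mi z k) (ni z i j k k) else none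
  else none

/-- one deduction step -/
def step (fl : List ℕ) (z : ℕ) (S : ℕ × ℕ) : Option (ℕ × ℕ) :=
  match dg z 6 with
  | 0 => stepB z S.1 S.2 (dg z 7) (dg z 8) (dg z 9) (dg z 10)
  | 1 => stepF fl z S.1 S.2 (dg z 7) (dg z 8)
  | _ => stepG z S.1 S.2 (dg z 7) (dg z 8) (dg z 9) (dg z 10)

/-- a list of deduction steps -/
def run (fl : List ℕ) : List ℕ → ℕ × ℕ → Option (ℕ × ℕ)
  | [], S => some S
  | z :: l, S =>
    match step fl z S with
    | none => none
    | some S' => run fl l S'

/-- certificates -/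
inductive Cert : Type
  | leaf (l : List ℕ) : Cert
  | node (l : List ℕ) (m : ℕ) (a b : Cert) : Cert

/-- the checker -/
def chk (fl : List ℕ) : Cert → ℕ × ℕ → Bool
  | .leaf l, S =>
    match run fl l S with
    | none => false
    | some S' => !(Nat.beq (S'.1 &&& S'.2) 0)
  | .node l m a b, S =>
    match run fl l S with
    | none => false
    | some S' => chk fl a (S'.1 ||| 2 ^ m, S'.2) && chk fl b (S'.1, S'.2 ||| 2 ^ m)

/-- the recorded signs are correct -/
def Inv (E : ℕ → ℝ) (S : ℕ × ℕ) : Prop :=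
  (∀ m, Nat.testBit S.1 m = true → 0 < E m) ∧ (∀ m, Nat.testBit S.2 m = true → E m < 0)

theorem beq_false_of_ne {a b : ℕ} (h : a ≠ b) : Nat.beq a b = false := by
  cases hb : Nat.beq a b
  · rfl
  · exact absurd (Nat.eq_of_beq_eq_true hb) h

theorem ne_of_not_beq {a b : ℕ} (h : (!(Nat.beq a b)) = true) : a ≠ b := by
  intro e
  rw [e, Nat.beq_refl] at h
  cases h

theorem lt_of_blt {a b : ℕ} (h : Nat.blt a b = true) : a < b := by
  unfold Nat.blt at h
  exact Nat.le_of_ble_eq_true h

theorem Inv.setP {E : ℕ → ℝ} {P N : ℕ} (h : Inv E (P, N)) {m : ℕ} (hm : 0 < E m) :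
    Inv E (P ||| 2 ^ m, N) := by
  refine ⟨fun k hk => ?_, h.2⟩
  simp only [Nat.testBit_or, Nat.testBit_two_pow, Bool.or_eq_true, decide_eq_true_eq] at hk
  rcases hk with hk | hk
  · exact h.1 k hk
  · rw [← hk]; exact hm

theorem Inv.setN {E : ℕ → ℝ} {P N : ℕ} (h : Inv E (P, N)) {m : ℕ} (hm : E m < 0) :
    Inv E (P, N ||| 2 ^ m) := by
  refine ⟨h.1, fun k hk => ?_⟩
  simp only [Nat.testBit_or, Nat.testBit_two_pow, Bool.or_eq_true, decide_eq_true_eq] at hk
  rcases hk with hk | hk
  · exact h.2 k hk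
  · rw [← hk]; exact hm

theorem kp_sound {E : ℕ → ℝ} {P N z r : ℕ} (h : Inv E (P, N)) (hk : kp P N z r = true) :
    0 < lam E z r := by
  unfold kp at hk
  unfold lam
  by_cases hr : r % 2 = 0
  · rw [if_pos hr]
    rw [hr] at hk
    exact h.1 _ hk
  · rw [if_neg hr]
    have : Nat.beq (r % 2) 0 = false := beq_false_of_ne hr
    rw [this, cond_false] at hk
    have := h.2 _ hk
    linarith

theorem kn_sound {E : ℕ → ℝ} {P N z r : ℕ} (h : Inv E (P, N)) (hk : kn P N z r = true) :
    lam E z r < 0 := by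
  unfold kn at hk
  unfold lam
  by_cases hr : r % 2 = 0
  · rw [if_pos hr]
    rw [hr] at hk
    exact h.2 _ hk
  · rw [if_neg hr]
    have : Nat.beq (r % 2) 0 = false := beq_false_of_ne hr
    rw [this, cond_false] at hk
    have := h.1 _ hk
    linarith

theorem sp_sound {E : ℕ → ℝ} {P N z r : ℕ} (h : Inv E (P, N)) (hk : 0 < lam E z r) :
    Inv E (sp P N z r) := by
  unfold sp
  unfold lam at hk
  by_cases hr : r % 2 = 0
  · rw [if_pos hr] at hk
    rw [hr]
    exact h.setP hk
  · rw [if_neg hr] at hk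
    have : Nat.beq (r % 2) 0 = false := beq_false_of_ne hr
    rw [this, cond_false]
    exact h.setN (by linarith)

theorem sn_sound {E : ℕ → ℝ} {P N z r : ℕ} (h : Inv E (P, N)) (hk : lam E z r < 0) :
    Inv E (sn P N z r) := by
  unfold sn
  unfold lam at hk
  by_cases hr : r % 2 = 0
  · rw [if_pos hr] at hk
    rw [hr]
    exact h.setN hk
  · rw [if_neg hr] at hk
    have : Nat.beq (r % 2) 0 = false := beq_false_of_ne hr
    rw [this, cond_false]
    exact h.setP (by linarith)

theorem pp_sound {E : ℕ → ℝ} {P N a b : ℕ} (h : Inv E (P, N)) (hk : pp P N a b = true) :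
    0 < E a * E b := by
  unfold pp at hk
  simp only [Bool.or_eq_true, Bool.and_eq_true] at hk
  rcases hk with ⟨h1, h2⟩ | ⟨h1, h2⟩
  · exact mul_pos (h.1 _ h1) (h.1 _ h2)
  · exact mul_pos_of_neg_of_neg (h.2 _ h1) (h.2 _ h2)

theorem pn_sound {E : ℕ → ℝ} {P N a b : ℕ} (h : Inv E (P, N)) (hk : pn P N a b = true) :
    E a * E b < 0 := by
  unfold pn at hk
  simp only [Bool.or_eq_true, Bool.and_eq_true] at hk
  rcases hk with ⟨h1, h2⟩ | ⟨h1, h2⟩
  · exact mul_neg_of_pos_of_neg (h.1 _ h1) (h.2 _ h2)
  · exact mul_neg_of_neg_of_pos (h.2 _ h1) (h.1 _ h2)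

theorem gp_sound {E : ℕ → ℝ} {P N a b : ℕ} {S : ℕ × ℕ} (h : Inv E (P, N)) (hab : 0 < E a * E b)
    (hk : gp P N a b = some S) : Inv E S := by
  unfold gp at hk
  cases h1 : Nat.testBit P a
  · rw [h1, cond_false] at hk
    cases h2 : Nat.testBit N a
    · rw [h2, cond_false] at hk; cases hk
    · rw [h2, cond_true] at hk
      injection hk with hk
      rw [← hk]
      refine h.setN ?_
      have := h.2 _ h2
      nlinarith
  · rw [h1, cond_true] at hk
    injection hk with hk
    rw [← hk]
    refine h.setP ?_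
    have := h.1 _ h1
    nlinarith

theorem gn_sound {E : ℕ → ℝ} {P N a b : ℕ} {S : ℕ × ℕ} (h : Inv E (P, N)) (hab : E a * E b < 0)
    (hk : gn P N a b = some S) : Inv E S := by
  unfold gn at hk
  cases h1 : Nat.testBit P a
  · rw [h1, cond_false] at hk
    cases h2 : Nat.testBit N a
    · rw [h2, cond_false] at hk; cases hk
    · rw [h2, cond_true] at hk
      injection hk with hk
      rw [← hk]
      refine h.setP ?_
      have := h.2 _ h2
      nlinarith
  · rw [h1, cond_true] at hk
    injection hk with hk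
    rw [← hk]
    refine h.setN ?_
    have := h.1 _ h1
    nlinarith

theorem stepB_sound {E : ℕ → ℝ} {fl : List ℕ} (hE : Sys E fl) {z P N i j k l : ℕ} {S : ℕ × ℕ}
    (h : Inv E (P, N)) (hs : stepB z P N i j k l = some S) : Inv E S := by
  unfold stepB at hs
  cases hc : (valid 15 z && Nat.blt i 6 && Nat.blt j 6 && Nat.blt k 6 && Nat.blt l 6 &&
    !(Nat.beq i j) && !(Nat.beq i k) && !(Nat.beq i l) && !(Nat.beq j k) && !(Nat.beq j l) &&
    !(Nat.beq k l))
  · rw [hc, cond_false] at hs; cases hs
  rw [hc, cond_true] at hs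
  simp only [Bool.and_eq_true] at hc
  obtain ⟨⟨⟨⟨⟨⟨⟨⟨⟨⟨hv, h1⟩, h2⟩, h3⟩, h4⟩, h5⟩, h6⟩, h7⟩, h8⟩, h9⟩, h10⟩ := hc
  have key := hE.axB z hv i j k l (lt_of_blt h1) (lt_of_blt h2) (lt_of_blt h3) (lt_of_blt h4)
    (ne_of_not_beq h5) (ne_of_not_beq h6) (ne_of_not_beq h7) (ne_of_not_beq h8)
    (ne_of_not_beq h9) (ne_of_not_beq h10)
  cases hp : (kp P N z j && kp P N z k && kp P N z l)
  · rw [hp, cond_false] at hs
    cases hn : (kn P N z j && kn P N z k && kn P N z l)
    · rw [hn, cond_false] at hs; cases hs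
    · rw [hn, cond_true] at hs
      injection hs with hs
      rw [← hs]
      simp only [Bool.and_eq_true] at hn
      exact sp_sound h (key.2 (kn_sound h hn.1.1) (kn_sound h hn.1.2) (kn_sound h hn.2))
  · rw [hp, cond_true] at hs
    injection hs with hs
    rw [← hs]
    simp only [Bool.and_eq_true] at hp
    exact sn_sound h (key.1 (kp_sound h hp.1.1) (kp_sound h hp.1.2) (kp_sound h hp.2))

theorem stepF_sound {E : ℕ → ℝ} {fl : List ℕ} (hE : Sys E fl) {z P N i j : ℕ} {S : ℕ × ℕ}
    (h : Inv E (P, N)) (hs : stepF fl z P N i j = some S) : Inv E S := by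
  unfold stepF at hs
  cases hc : (valid 14 z && Nat.blt i 6 && Nat.blt j 6 && !(Nat.beq i j) &&
    fl.any (fun a => Nat.beq a (Mk z - 2 ^ dg z i - 2 ^ dg z j)))
  · rw [hc, cond_false] at hs; cases hs
  rw [hc, cond_true] at hs
  simp only [Bool.and_eq_true] at hc
  obtain ⟨⟨⟨⟨hv, h1⟩, h2⟩, h3⟩, h4⟩ := hc
  rw [List.any_eq_true] at h4
  obtain ⟨a, ha, hb⟩ := h4
  have hmem : Mk z - 2 ^ dg z i - 2 ^ dg z j ∈ fl := by
    rw [← Nat.eq_of_beq_eq_true hb]; exact ha
  have key := hE.axF z hv i j (lt_of_blt h1) (lt_of_blt h2) (ne_of_not_beq h3) hmem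
  cases hp : kp P N z j
  · rw [hp, cond_false] at hs
    cases hn : kn P N z j
    · rw [hn, cond_false] at hs; cases hs
    · rw [hn, cond_true] at hs
      injection hs with hs
      rw [← hs]
      exact sp_sound h (key.2 (kn_sound h hn))
  · rw [hp, cond_true] at hs
    injection hs with hs
    rw [← hs]
    exact sn_sound h (key.1 (kp_sound h hp))

theorem stepG_sound {E : ℕ → ℝ} {fl : List ℕ} (hE : Sys E fl) {z P N i j k w : ℕ} {S : ℕ × ℕ}
    (h : Inv E (P, N)) (hs : stepG z P N i j k w = some S) : Inv E S := by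
  unfold stepG at hs
  cases hc : (valid 14 z && Nat.blt i j && Nat.blt j k && Nat.blt k 6)
  · rw [hc, cond_false] at hs; cases hs
  rw [hc, cond_true] at hs
  simp only [Bool.and_eq_true] at hc
  obtain ⟨⟨⟨hv, h1⟩, h2⟩, h3⟩ := hc
  have key := hE.axG z hv i j k (lt_of_blt h1) (lt_of_blt h2) (lt_of_blt h3)
  have fin : ∀ {c1 c2 : Bool} {o1 o2 : Option (ℕ × ℕ)},
      (bif c1 then o1 else bif c2 then o2 else none) = some S →
      (c1 = true → o1 = some S → Inv E S) → (c2 = true → o2 = some S → Inv E S) → Inv E S := by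
    intro c1 c2 o1 o2 e f1 f2
    cases c1
    · cases c2
      · cases e
      · exact f2 rfl e
    · exact f1 rfl e
  rcases w with _ | _ | w
  · refine fin hs (fun hc ho => ?_) (fun hc ho => ?_)
    · simp only [Bool.and_eq_true] at hc
      have e1 := pn_sound h hc.1
      have e2 := pp_sound h hc.2
      exact gn_sound h (by linarith) ho
    · simp only [Bool.and_eq_true] at hc
      have e1 := pp_sound h hc.1
      have e2 := pn_sound h hc.2
      exact gp_sound h (by linarith) ho
  · refine fin hs (fun hc ho => ?_) (fun hc ho => ?_)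
    · simp only [Bool.and_eq_true] at hc
      have e1 := pp_sound h hc.1
      have e2 := pp_sound h hc.2
      exact gp_sound h (by linarith) ho
    · simp only [Bool.and_eq_true] at hc
      have e1 := pn_sound h hc.1
      have e2 := pn_sound h hc.2
      exact gn_sound h (by linarith) ho
  · refine fin hs (fun hc ho => ?_) (fun hc ho => ?_)
    · simp only [Bool.and_eq_true] at hc
      have e1 := pp_sound h hc.1
      have e2 := pn_sound h hc.2
      exact gn_sound h (by linarith) ho
    · simp only [Bool.and_eq_true] at hc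
      have e1 := pn_sound h hc.1
      have e2 := pp_sound h hc.2
      exact gp_sound h (by linarith) ho

theorem step_sound {E : ℕ → ℝ} {fl : List ℕ} (hE : Sys E fl) {z : ℕ} {S S' : ℕ × ℕ}
    (h : Inv E S) (hs : step fl z S = some S') : Inv E S' := by
  obtain ⟨P, N⟩ := S
  unfold step at hs
  split at hs
  · exact stepB_sound hE h hs
  · exact stepF_sound hE h hs
  · exact stepG_sound hE h hs

theorem run_sound {E : ℕ → ℝ} {fl : List ℕ} (hE : Sys E fl) (l : List ℕ) {S S' : ℕ × ℕ}
    (h : Inv E S) (hs : run fl l S = some S') : Inv E S' := by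
  induction l generalizing S with
  | nil =>
    unfold run at hs
    injection hs with hs
    rw [← hs]; exact h
  | cons z l ih =>
    unfold run at hs
    cases hz : step fl z S with
    | none => rw [hz] at hs; cases hs
    | some T =>
      rw [hz] at hs
      exact ih (step_sound hE h hz) hs

theorem chk_sound {E : ℕ → ℝ} {fl : List ℕ} (hE : Sys E fl) (c : Cert) {S : ℕ × ℕ}
    (h : Inv E S) (hs : chk fl c S = true) : False := by
  induction c generalizing S with
  | leaf l =>
    unfold chk at hs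
    cases hz : run fl l S with
    | none => rw [hz] at hs; cases hs
    | some T =>
      rw [hz] at hs
      have hT := run_sound hE l h hz
      have hne : T.1 &&& T.2 ≠ 0 := ne_of_not_beq hs
      obtain ⟨i, hi⟩ := Nat.exists_testBit_of_ne_zero hne
      rw [Nat.testBit_and, Bool.and_eq_true] at hi
      have h1 := hT.1 i hi.1
      have h2 := hT.2 i hi.2
      linarith
  | node l m a b iha ihb =>
    unfold chk at hs
    cases hz : run fl l S with
    | none => rw [hz] at hs; cases hs
    | some T =>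
      rw [hz] at hs
      have hT := run_sound hE l h hz
      simp only [Bool.and_eq_true] at hs
      obtain ⟨P, N⟩ := T
      rcases lt_or_gt_of_ne (hE.nz m) with hm | hm
      · exact ihb (hT.setN hm) hs.2
      · exact iha (hT.setP hm) hs.1

theorem Sys.neg {E : ℕ → ℝ} {fl : List ℕ} (hE : Sys E fl) : Sys (fun m => - E m) fl := by
  have hl : ∀ z r, lam (fun m => - E m) z r = - lam E z r := by
    intro z r
    unfold lam
    split_ifs <;> rfl
  refine ⟨fun m => neg_ne_zero.2 (hE.nz m), ?_, ?_, ?_⟩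
  · intro z hz i j k l hi hj hk hl' h1 h2 h3 h4 h5 h6
    have key := hE.axB z hz i j k l hi hj hk hl' h1 h2 h3 h4 h5 h6
    simp only [hl]
    refine ⟨fun a b c => ?_, fun a b c => ?_⟩
    · have := key.2 (by linarith) (by linarith) (by linarith)
      linarith
    · have := key.1 (by linarith) (by linarith) (by linarith)
      linarith
  · intro z hz i j hi hj h1 hm
    have key := hE.axF z hz i j hi hj h1 hm
    simp only [hl]
    refine ⟨fun a => ?_, fun a => ?_⟩
    · have := key.2 (by linarith)
      linarith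
    · have := key.1 (by linarith)
      linarith
  · intro z hz i j k h1 h2 h3
    have key := hE.axG z hz i j k h1 h2 h3
    simp only [neg_mul_neg]
    exact key

/-- a certificate checked with the value at `m` assumed positive refutes every sign system -/
theorem Sys.false_of_chk {E : ℕ → ℝ} {fl : List ℕ} (hE : Sys E fl) (c : Cert) (m : ℕ)
    (hs : chk fl c (2 ^ m, 0) = true) : False := by
  have inv : ∀ E : ℕ → ℝ, 0 < E m → Inv E (2 ^ m, 0) := by
    intro E hm
    refine ⟨fun k hk => ?_, fun k hk => ?_⟩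
    · rw [Nat.testBit_two_pow, decide_eq_true_eq] at hk
      rw [← hk]; exact hm
    · rw [Nat.zero_testBit] at hk
      cases hk
  rcases lt_or_gt_of_ne (hE.nz m) with hm | hm
  · exact chk_sound hE.neg c (inv _ (by linarith)) hs
  · exact chk_sound hE c (inv _ hm) hs

end Pool.Agent.Lib.MP_1c334d_co
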