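import Mathlib

/-!
# Polytopes, faces, neighborly polytopes and extendability
-/

namespace Pool.Agent.Lib.MP_1c334d_co

/-- The Euclidean space `ℝ^d`. -/
abbrev Euc (d : ℕ) : Type := EuclideanSpace ℝ (Fin d)

/-- The set of vertices of a polytope: its extreme points. -/
def vert {d : ℕ} (P : Set (Euc d)) : Set (Euc d) := Set.extremePoints ℝ P

/-- `P` is a `d`-polytope: the convex hull of a finite subset of `ℝ^d`, of dimension `d`. -/
def IsPolytope (d : ℕ) (P : Set (Euc d)) : Prop :=
  (∃ S : Set (Euc d), S.Finite ∧ P = convexHull ℝ S) ∧ affineSpan ℝ P = ⊤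

/-- `F` is a face of `P`: the empty set, or the set of all points of `P` at which some linear
functional attains its maximum over `P` (the zero functional gives the face `P`). -/
def IsFace {d : ℕ} (P F : Set (Euc d)) : Prop :=
  F = ∅ ∨ ∃ l : Euc d →ₗ[ℝ] ℝ, F = {x | x ∈ P ∧ ∀ y ∈ P, l y ≤ l x}

/-- `P` and `Q` are combinatorially equivalent: their face lattices (the faces, ordered by
inclusion) are isomorphic. -/
def CombEquiv {d : ℕ} (P Q : Set (Euc d)) : Prop :=
  Nonempty ({F : Set (Euc d) // IsFace P F} ≃o {F : Set (Euc d) // IsFace Q F})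

/-- Every set of at most `d / 2` vertices of `P` is the vertex set of a face of `P`. -/
def Neighborly (d : ℕ) (P : Set (Euc d)) : Prop :=
  ∀ S : Finset (Euc d), (S : Set (Euc d)) ⊆ vert P → S.card ≤ d / 2 →
    ∃ F, IsFace P F ∧ vert F = S

/-- There are a neighborly `d`-polytope `Q` with one vertex more than `P` and a vertex `v` of `Q`
such that the convex hull of the other vertices of `Q` is combinatorially equivalent to `P`. -/
def Extendable (d : ℕ) (P : Set (Euc d)) : Prop :=
  ∃ Q : Set (Euc d), IsPolytope d Q ∧ Neighborly d Q ∧ (vert Q).ncard = (vert P).ncard + 1 ∧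
    ∃ v ∈ vert Q, CombEquiv (convexHull ℝ (vert Q \ {v})) P

end Pool.Agent.Lib.MP_1c334d_co
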