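import Mathlib

/-!
# Determinants of five homogeneous coordinate vectors
-/

namespace Pool.Agent.Lib.MP_1c334d_co

open Matrix

/-- the determinant of the five rows `v a, v b, v c, v d, v e` -/
noncomputable def D (v : ℕ → Fin 5 → ℝ) (a b c d e : ℕ) : ℝ :=
  Matrix.det ![v a, v b, v c, v d, v e]

theorem cramer (u : Fin 6 → Fin 5 → ℝ) (g : Fin 5 → ℝ) :
    ∑ i : Fin 6, (-1 : ℝ) ^ (i : ℕ) * (g ⬝ᵥ u i) *
      Matrix.det (fun k : Fin 5 => u (i.succAbove k)) = 0 := by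
  set M : Matrix (Fin 6) (Fin 6) ℝ := fun i => Fin.cons (g ⬝ᵥ u i) (u i) with hM
  have h0 : M.det = 0 := by
    rw [← Matrix.exists_mulVec_eq_zero_iff]
    refine ⟨Fin.cons (-1) g, ?_, ?_⟩
    · intro h
      have := congrFun h 0
      simp at this
    · funext i
      simp only [Matrix.mulVec, dotProduct, hM, Fin.sum_univ_succ (n := 5), Fin.cons_zero,
        Fin.cons_succ, Pi.zero_apply]
      simp only [mul_comm]
      ring
  rw [Matrix.det_succ_column_zero] at h0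
  exact h0

theorem cramer6 (v : ℕ → Fin 5 → ℝ) (g : Fin 5 → ℝ) (c0 c1 c2 c3 c4 c5 : ℕ) :
    (g ⬝ᵥ v c0) * D v c1 c2 c3 c4 c5 - (g ⬝ᵥ v c1) * D v c0 c2 c3 c4 c5
      + (g ⬝ᵥ v c2) * D v c0 c1 c3 c4 c5 - (g ⬝ᵥ v c3) * D v c0 c1 c2 c4 c5
      + (g ⬝ᵥ v c4) * D v c0 c1 c2 c3 c5 - (g ⬝ᵥ v c5) * D v c0 c1 c2 c3 c4 = 0 := by
  have h := cramer ![v c0, v c1, v c2, v c3, v c4, v c5] g
  have e0 : (fun k : Fin 5 => (![v c0, v c1, v c2, v c3, v c4, v c5] : Fin 6 → Fin 5 → ℝ)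
      ((0 : Fin 6).succAbove k)) = ![v c1, v c2, v c3, v c4, v c5] := by
    funext k; fin_cases k <;> rfl
  have e1 : (fun k : Fin 5 => (![v c0, v c1, v c2, v c3, v c4, v c5] : Fin 6 → Fin 5 → ℝ)
      ((1 : Fin 6).succAbove k)) = ![v c0, v c2, v c3, v c4, v c5] := by
    funext k; fin_cases k <;> rfl
  have e2 : (fun k : Fin 5 => (![v c0, v c1, v c2, v c3, v c4, v c5] : Fin 6 → Fin 5 → ℝ)
      ((2 : Fin 6).succAbove k)) = ![v c0, v c1, v c3, v c4, v c5] := by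
    funext k; fin_cases k <;> rfl
  have e3 : (fun k : Fin 5 => (![v c0, v c1, v c2, v c3, v c4, v c5] : Fin 6 → Fin 5 → ℝ)
      ((3 : Fin 6).succAbove k)) = ![v c0, v c1, v c2, v c4, v c5] := by
    funext k; fin_cases k <;> rfl
  have e4 : (fun k : Fin 5 => (![v c0, v c1, v c2, v c3, v c4, v c5] : Fin 6 → Fin 5 → ℝ)
      ((4 : Fin 6).succAbove k)) = ![v c0, v c1, v c2, v c3, v c5] := by
    funext k; fin_cases k <;> rfl
  have e5 : (fun k : Fin 5 => (![v c0, v c1, v c2, v c3, v c4, v c5] : Fin 6 → Fin 5 → ℝ)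
      ((5 : Fin 6).succAbove k)) = ![v c0, v c1, v c2, v c3, v c4] := by
    funext k; fin_cases k <;> rfl
  rw [Fin.sum_univ_six, e0, e1, e2, e3, e4, e5] at h
  simp only [Matrix.cons_val, Fin.coe_ofNat_eq_mod, Fin.isValue] at h
  norm_num at h
  unfold D
  linarith

/-- swapping the last two rows -/
theorem D_swap34 (v : ℕ → Fin 5 → ℝ) (a b c d e : ℕ) : D v a b c d e = - D v a b c e d := by
  unfold D
  have h := Matrix.det_permute (Equiv.swap (3 : Fin 5) 4) ![v a, v b, v c, v e, v d]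
  have e : Matrix.submatrix (![v a, v b, v c, v e, v d] : Matrix (Fin 5) (Fin 5) ℝ)
      (Equiv.swap (3 : Fin 5) 4) id = ![v a, v b, v c, v d, v e] := by
    funext k j; fin_cases k <;> rfl
  rw [e] at h
  rw [h, Equiv.Perm.sign_swap (by decide)]
  simp

theorem D_swap23 (v : ℕ → Fin 5 → ℝ) (a b c d e : ℕ) : D v a b c d e = - D v a b d c e := by
  unfold D
  have h := Matrix.det_permute (Equiv.swap (2 : Fin 5) 3) ![v a, v b, v d, v c, v e]
  have e : Matrix.submatrix (![v a, v b, v d, v c, v e] : Matrix (Fin 5) (Fin 5) ℝ)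
      (Equiv.swap (2 : Fin 5) 3) id = ![v a, v b, v c, v d, v e] := by
    funext k j; fin_cases k <;> rfl
  rw [e] at h
  rw [h, Equiv.Perm.sign_swap (by decide)]
  simp

theorem D_swap12 (v : ℕ → Fin 5 → ℝ) (a b c d e : ℕ) : D v a b c d e = - D v a c b d e := by
  unfold D
  have h := Matrix.det_permute (Equiv.swap (1 : Fin 5) 2) ![v a, v c, v b, v d, v e]
  have e : Matrix.submatrix (![v a, v c, v b, v d, v e] : Matrix (Fin 5) (Fin 5) ℝ)
      (Equiv.swap (1 : Fin 5) 2) id = ![v a, v b, v c, v d, v e] := by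
    funext k j; fin_cases k <;> rfl
  rw [e] at h
  rw [h, Equiv.Perm.sign_swap (by decide)]
  simp

theorem D_swap01 (v : ℕ → Fin 5 → ℝ) (a b c d e : ℕ) : D v a b c d e = - D v b a c d e := by
  unfold D
  have h := Matrix.det_permute (Equiv.swap (0 : Fin 5) 1) ![v b, v a, v c, v d, v e]
  have e : Matrix.submatrix (![v b, v a, v c, v d, v e] : Matrix (Fin 5) (Fin 5) ℝ)
      (Equiv.swap (0 : Fin 5) 1) id = ![v a, v b, v c, v d, v e] := by
    funext k j; fin_cases k <;> rfl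
  rw [e] at h
  rw [h, Equiv.Perm.sign_swap (by decide)]
  simp

end Pool.Agent.Lib.MP_1c334d_co
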