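import Pool.Agent.Lib.MP_1c334d_co.P14

/-!
# The dimension of the polytope with fourteen vertices
-/

namespace Pool.Agent.Lib.MP_1c334d_co

open Set

theorem pt_5_0 : pt 5 0 = 1 := by
  have h : pcoord 5 0 = 1 := by decide +kernel
  change (pcoord 5 0 : ℝ) = _
  rw [h]; norm_num

theorem pt_5_1 : pt 5 1 = 20 := by
  have h : pcoord 5 1 = 20 := by decide +kernel
  change (pcoord 5 1 : ℝ) = _
  rw [h]; norm_num

theorem pt_5_2 : pt 5 2 = 32 := by
  have h : pcoord 5 2 = 32 := by decide +kernel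
  change (pcoord 5 2 : ℝ) = _
  rw [h]; norm_num

theorem pt_5_3 : pt 5 3 = -11 := by
  have h : pcoord 5 3 = -11 := by decide +kernel
  change (pcoord 5 3 : ℝ) = _
  rw [h]; norm_num

theorem pt_6_0 : pt 6 0 = -15 := by
  have h : pcoord 6 0 = -15 := by decide +kernel
  change (pcoord 6 0 : ℝ) = _
  rw [h]; norm_num

theorem pt_6_1 : pt 6 1 = 14 := by
  have h : pcoord 6 1 = 14 := by decide +kernel
  change (pcoord 6 1 : ℝ) = _
  rw [h]; norm_num

theorem pt_6_2 : pt 6 2 = -24 := by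
  have h : pcoord 6 2 = -24 := by decide +kernel
  change (pcoord 6 2 : ℝ) = _
  rw [h]; norm_num

theorem pt_6_3 : pt 6 3 = 24 := by
  have h : pcoord 6 3 = 24 := by decide +kernel
  change (pcoord 6 3 : ℝ) = _
  rw [h]; norm_num

theorem pt_7_0 : pt 7 0 = 28 := by
  have h : pcoord 7 0 = 28 := by decide +kernel
  change (pcoord 7 0 : ℝ) = _
  rw [h]; norm_num

theorem pt_7_1 : pt 7 1 = 17 := by
  have h : pcoord 7 1 = 17 := by decide +kernel
  change (pcoord 7 1 : ℝ) = _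
  rw [h]; norm_num

theorem pt_7_2 : pt 7 2 = 27 := by
  have h : pcoord 7 2 = 27 := by decide +kernel
  change (pcoord 7 2 : ℝ) = _
  rw [h]; norm_num

theorem pt_7_3 : pt 7 3 = 5 := by
  have h : pcoord 7 3 = 5 := by decide +kernel
  change (pcoord 7 3 : ℝ) = _
  rw [h]; norm_num

theorem pt_8_0 : pt 8 0 = 4 := by
  have h : pcoord 8 0 = 4 := by decide +kernel
  change (pcoord 8 0 : ℝ) = _
  rw [h]; norm_num

theorem pt_8_1 : pt 8 1 = 33 := by
  have h : pcoord 8 1 = 33 := by decide +kernel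
  change (pcoord 8 1 : ℝ) = _
  rw [h]; norm_num

theorem pt_8_2 : pt 8 2 = -27 := by
  have h : pcoord 8 2 = -27 := by decide +kernel
  change (pcoord 8 2 : ℝ) = _
  rw [h]; norm_num

theorem pt_8_3 : pt 8 3 = 7 := by
  have h : pcoord 8 3 = 7 := by decide +kernel
  change (pcoord 8 3 : ℝ) = _
  rw [h]; norm_num

theorem pt_9_0 : pt 9 0 = -23 := by
  have h : pcoord 9 0 = -23 := by decide +kernel
  change (pcoord 9 0 : ℝ) = _
  rw [h]; norm_num

theorem pt_9_1 : pt 9 1 = 24 := by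
  have h : pcoord 9 1 = 24 := by decide +kernel
  change (pcoord 9 1 : ℝ) = _
  rw [h]; norm_num

theorem pt_9_2 : pt 9 2 = 21 := by
  have h : pcoord 9 2 = 21 := by decide +kernel
  change (pcoord 9 2 : ℝ) = _
  rw [h]; norm_num

theorem pt_9_3 : pt 9 3 = -18 := by
  have h : pcoord 9 3 = -18 := by decide +kernel
  change (pcoord 9 3 : ℝ) = _
  rw [h]; norm_num

theorem eq_comb (x : Euc 4) : x =
    ((145 / 146) * x 0 + (-579 / 146) * x 1 + (-126 / 73) * x 2 + (-216 / 73) * x 3) • (pt 6 - pt 5) + ((-9539 / 1168) * x 0 + (37475 / 1168) * x 1 + (8207 / 584) * x 2 + (14163 / 584) * x 3) • (pt 7 - pt 5) +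
    ((1819 / 1168) * x 0 + (-7051 / 1168) * x 1 + (-1559 / 584) * x 2 + (-2683 / 584) * x 3) • (pt 8 - pt 5) + ((-5663 / 584) * x 0 + (22183 / 584) * x 1 + (4855 / 292) * x 2 + (8375 / 292) * x 3) • (pt 9 - pt 5) := by
  ext k
  fin_cases k <;>
  simp only [PiLp.add_apply, PiLp.smul_apply, PiLp.sub_apply, smul_eq_mul, Fin.zero_eta, Fin.mk_one,
    Fin.reduceFinMk, Fin.isValue, pt_5_0, pt_5_1, pt_5_2, pt_5_3, pt_6_0, pt_6_1, pt_6_2, pt_6_3, pt_7_0, pt_7_1, pt_7_2, pt_7_3, pt_8_0, pt_8_1, pt_8_2, pt_8_3, pt_9_0, pt_9_1, pt_9_2, pt_9_3] <;> ring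

theorem affineSpan_P14 : affineSpan ℝ P14 = ⊤ := by
  rw [P14, affineSpan_convexHull]
  rw [AffineSubspace.affineSpan_eq_top_iff_vectorSpan_eq_top_of_nonempty ℝ (Euc 4) (Euc 4)
    ⟨pt 0, pt_mem (by norm_num)⟩]
  rw [eq_top_iff]
  intro x _
  have h : ∀ i < 14, pt i - pt 5 ∈ vectorSpan ℝ S14 := fun i hi =>
    vsub_mem_vectorSpan ℝ (pt_mem hi) (pt_mem (by norm_num))
  rw [eq_comb x]
  refine Submodule.add_mem _ (Submodule.add_mem _ (Submodule.add_mem _ ?_ ?_) ?_) ?_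
  · exact Submodule.smul_mem _ _ (h _ (by norm_num))
  · exact Submodule.smul_mem _ _ (h _ (by norm_num))
  · exact Submodule.smul_mem _ _ (h _ (by norm_num))
  · exact Submodule.smul_mem _ _ (h _ (by norm_num))

theorem isPolytope_P14 : IsPolytope 4 P14 := ⟨⟨S14, S14_finite, rfl⟩, affineSpan_P14⟩

end Pool.Agent.Lib.MP_1c334d_co
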