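import Pool.Agent.Lib.MP_1c334d_co.Rel

/-!
# Fifteen vectors with supporting functionals form a sign system
-/

namespace Pool.Agent.Lib.MP_1c334d_co

open Matrix

/-- Fifteen vectors such that any two of them, and any four of the first fourteen whose mask is
in the list `fl`, are supported by a linear functional. -/
structure Pts (v : ℕ → Fin 5 → ℝ) (fl : List ℕ) : Prop where
  hpair : ∀ i < 15, ∀ j < 15, i ≠ j → ∃ g : Fin 5 → ℝ, g ⬝ᵥ v i = 0 ∧ g ⬝ᵥ v j = 0 ∧
    ∀ k < 15, k ≠ i → k ≠ j → 0 < g ⬝ᵥ v k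
  hfac : ∀ a b c d, a < b → b < c → c < d → d < 14 → 2 ^ a + 2 ^ b + 2 ^ c + 2 ^ d ∈ fl →
    ∃ g : Fin 5 → ℝ, g ⬝ᵥ v a = 0 ∧ g ⬝ᵥ v b = 0 ∧ g ⬝ᵥ v c = 0 ∧ g ⬝ᵥ v d = 0 ∧
      ∀ k < 14, k ≠ a → k ≠ b → k ≠ c → k ≠ d → 0 < g ⬝ᵥ v k

theorem mask4 : ∀ d < 14, ∀ c < d, ∀ b < c, ∀ a < b,
    2 ^ a + 2 ^ b + 2 ^ c + 2 ^ d = 2 ^ a ||| 2 ^ b ||| 2 ^ c ||| 2 ^ d := by
  decide +kernel

theorem two_of_five : ∀ b : Fin 5 → Bool, ∃ p q : Fin 5, p ≠ q ∧
    ∃ s : Bool, ∀ r, r ≠ p → r ≠ q → b r = s := by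
  decide +kernel

theorem third5 : ∀ p q : Fin 5, ∃ r : Fin 5, r ≠ p ∧ r ≠ q := by
  decide

/-- a vector of five reals satisfying many sign conditions vanishes -/
theorem eq_zero_of_pairs (w : Fin 5 → ℝ)
    (h : ∀ p q : Fin 5, p ≠ q → ∃ x : Fin 5 → ℝ, x p = 0 ∧ x q = 0 ∧
      (∀ r, r ≠ p → r ≠ q → 0 < x r) ∧ ∑ r, w r * x r = 0) : w = 0 := by
  obtain ⟨p, q, hpq, s, hs⟩ := two_of_five (fun r => decide (0 ≤ w r))
  obtain ⟨x, hp, hq, hx, hsum⟩ := h p q hpq
  have hx0 : ∀ r, 0 ≤ x r := by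
    intro r
    by_cases h1 : r = p
    · rw [h1, hp]
    · by_cases h2 : r = q
      · rw [h2, hq]
      · exact (hx r h1 h2).le
  have key : ∀ r, r ≠ p → r ≠ q → w r = 0 := by
    intro r h1 h2
    cases s
    · have hnn : ∀ r ∈ Finset.univ, 0 ≤ -(w r * x r) := by
        intro r _
        by_cases h1 : r = p
        · rw [h1, hp, mul_zero, neg_zero]
        · by_cases h2 : r = q
          · rw [h2, hq, mul_zero, neg_zero]
          · have := hs r h1 h2
            simp only [decide_eq_false_iff_not, not_le] at this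
            have := hx r h1 h2
            nlinarith
      have h0 : ∑ r, -(w r * x r) = 0 := by rw [Finset.sum_neg_distrib, hsum, neg_zero]
      have := (Finset.sum_eq_zero_iff_of_nonneg hnn).1 h0 r (Finset.mem_univ r)
      have h3 := hx r h1 h2
      rcases mul_eq_zero.1 (neg_eq_zero.1 this) with h4 | h4
      · exact h4
      · exact absurd h4 h3.ne'
    · have hnn : ∀ r ∈ Finset.univ, 0 ≤ w r * x r := by
        intro r _
        by_cases h1 : r = p
        · rw [h1, hp, mul_zero]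
        · by_cases h2 : r = q
          · rw [h2, hq, mul_zero]
          · have := hs r h1 h2
            simp only [decide_eq_true_eq] at this
            exact mul_nonneg this (hx0 r)
      have := (Finset.sum_eq_zero_iff_of_nonneg hnn).1 hsum r (Finset.mem_univ r)
      have h3 := hx r h1 h2
      rcases mul_eq_zero.1 this with h4 | h4
      · exact h4
      · exact absurd h4 h3.ne'
  -- a third index
  obtain ⟨r, hrp, hrq⟩ := third5 p q
  have hz : ∀ u u' : Fin 5, u ≠ u' → u' ≠ r → u ≠ r → (∀ t, t ≠ u → t ≠ u' → w t = 0) →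
      w u = 0 := by
    intro u u' huu hur' hur ht
    obtain ⟨x, h1, h2, h3, h4⟩ := h u' r hur'
    have hpos := h3 u huu hur
    rw [Finset.sum_eq_single u] at h4
    · rcases mul_eq_zero.1 h4 with h5 | h5
      · exact h5
      · exact absurd h5 hpos.ne'
    · intro t _ htu
      by_cases h5 : t = u'
      · rw [h5, h1, mul_zero]
      · rw [ht t htu h5, zero_mul]
    · intro h5
      exact absurd (Finset.mem_univ u) h5
  funext t
  by_cases h1 : t = p
  · rw [h1]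
    exact hz p q hpq hrq.symm hrp.symm key
  · by_cases h2 : t = q
    · rw [h2]
      exact hz q p hpq.symm hrp.symm hrq.symm (fun t h3 h4 => key t h4 h3)
    · exact key t h1 h2

theorem D_ne_zero {v : ℕ → Fin 5 → ℝ} {fl : List ℕ} (hv : Pts v fl) {a b c d e : ℕ}
    (h1 : a < b) (h2 : b < c) (h3 : c < d) (h4 : d < e) (h5 : e < 15) : D v a b c d e ≠ 0 := by
  intro h0
  unfold D at h0
  rw [← Matrix.exists_vecMul_eq_zero_iff] at h0
  obtain ⟨w, hw, hM⟩ := h0
  apply hw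
  let t : Fin 5 → ℕ := ![a, b, c, d, e]
  have ht15 : ∀ r, t r < 15 := by
    intro r
    fin_cases r <;> simp [t] <;> omega
  have htinj : ∀ r s, r ≠ s → t r ≠ t s := by
    intro r s hrs
    fin_cases r <;> fin_cases s <;> first | exact absurd rfl hrs | (simp [t]; omega)
  refine eq_zero_of_pairs w fun p q hpq => ?_
  obtain ⟨g, hg1, hg2, hg3⟩ := hv.hpair (t p) (ht15 p) (t q) (ht15 q) (htinj p q hpq)
  refine ⟨fun r => g ⬝ᵥ v (t r), hg1, hg2,
    fun r hr1 hr2 => hg3 (t r) (ht15 r) (htinj r p hr1) (htinj r q hr2), ?_⟩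
  have e1 : ∑ r, w r * (g ⬝ᵥ v (t r)) =
      g ⬝ᵥ (w ᵥ* (![v a, v b, v c, v d, v e] : Matrix (Fin 5) (Fin 5) ℝ)) := by
    simp only [Matrix.vecMul, dotProduct, Finset.mul_sum]
    rw [Finset.sum_comm]
    refine Finset.sum_congr rfl fun j _ => ?_
    refine Finset.sum_congr rfl fun r _ => ?_
    have : v (t r) j = (![v a, v b, v c, v d, v e] : Matrix (Fin 5) (Fin 5) ℝ) r j := by
      fin_cases r <;> rfl
    rw [this]
    ring
  rw [e1, hM, dotProduct_zero]

theorem Em_ne_zero {v : ℕ → Fin 5 → ℝ} {fl : List ℕ} (hv : Pts v fl) (m : ℕ) : Em v m ≠ 0 := by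
  unfold Em
  split
  · rename_i a b c d e he
    have hp : (els m).Pairwise (· < ·) := List.Pairwise.filter _ List.pairwise_lt_range
    have hmem : ∀ x ∈ els m, x < 15 := fun x hx =>
      List.mem_range.1 (List.mem_filter.1 hx).1
    rw [he] at hp hmem
    simp only [List.pairwise_cons, List.mem_cons, List.not_mem_nil, or_false, forall_eq_or_imp,
      forall_eq] at hp
    exact D_ne_zero hv hp.1.1 hp.2.1.1 hp.2.2.1.1 hp.2.2.2.1 (hmem e (by simp))
  · exact one_ne_zero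

theorem compl4_fin : ∀ i j k l : Fin 6, (i ≠ j ∧ i ≠ k ∧ i ≠ l ∧ j ≠ k ∧ j ≠ l ∧ k ≠ l) →
    ∃ p q : Fin 6, p ≠ q ∧ j ≠ p ∧ j ≠ q ∧
      ∀ r : Fin 6, r = p ∨ r = q ∨ r = i ∨ r = j ∨ r = k ∨ r = l := by
  decide +kernel

theorem compl4 : ∀ i < 6, ∀ j < 6, ∀ k < 6, ∀ l < 6, i ≠ j → i ≠ k → i ≠ l → j ≠ k → j ≠ l →
    k ≠ l → ∃ p < 6, ∃ q < 6, p ≠ q ∧ j ≠ p ∧ j ≠ q ∧
      ∀ r < 6, r = p ∨ r = q ∨ r = i ∨ r = j ∨ r = k ∨ r = l := by
  intro i hi j hj k hk l hl h1 h2 h3 h4 h5 h6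
  obtain ⟨p, q, hpq, hjp, hjq, hall⟩ := compl4_fin ⟨i, hi⟩ ⟨j, hj⟩ ⟨k, hk⟩ ⟨l, hl⟩
    ⟨fun h => h1 (congrArg Fin.val h), fun h => h2 (congrArg Fin.val h),
      fun h => h3 (congrArg Fin.val h), fun h => h4 (congrArg Fin.val h),
      fun h => h5 (congrArg Fin.val h), fun h => h6 (congrArg Fin.val h)⟩
  refine ⟨p, p.2, q, q.2, fun h => hpq (Fin.ext h), fun h => hjp (Fin.ext h),
    fun h => hjq (Fin.ext h), fun r hr => ?_⟩
  rcases hall ⟨r, hr⟩ with h | h | h | h | h | h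
  · exact Or.inl (congrArg Fin.val h)
  · exact Or.inr (Or.inl (congrArg Fin.val h))
  · exact Or.inr (Or.inr (Or.inl (congrArg Fin.val h)))
  · exact Or.inr (Or.inr (Or.inr (Or.inl (congrArg Fin.val h))))
  · exact Or.inr (Or.inr (Or.inr (Or.inr (Or.inl (congrArg Fin.val h)))))
  · exact Or.inr (Or.inr (Or.inr (Or.inr (Or.inr (congrArg Fin.val h)))))

set_option synthInstance.maxSize 4096 in
theorem rem_fin : ∀ i j : Fin 6, i ≠ j → ∃ a b c d : Fin 6, (a < b ∧ b < c ∧ c < d) ∧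
      (i ≠ a ∧ i ≠ b ∧ i ≠ c ∧ i ≠ d) ∧ (j ≠ a ∧ j ≠ b ∧ j ≠ c ∧ j ≠ d) ∧
      ∀ r : Fin 6, r ≠ i → r ≠ j → r = a ∨ r = b ∨ r = c ∨ r = d := by
  decide +kernel

theorem dg_lt {z : ℕ} (h : valid 15 z = true) {r : ℕ} (hr : r < 6) : dg z r < 15 := by
  obtain ⟨h0, h1, h2, h3, h4, h5⟩ := valid_iff h
  interval_cases r <;> omega

theorem dg_inj {z : ℕ} (h : valid 15 z = true) {r s : ℕ} (hr : r < 6) (hs : s < 6)
    (hrs : r ≠ s) : dg z r ≠ dg z s := by
  obtain ⟨h0, h1, h2, h3, h4, h5⟩ := valid_iff h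
  interval_cases r <;> interval_cases s <;> first | exact absurd rfl hrs | omega

theorem axB_Em {v : ℕ → Fin 5 → ℝ} {fl : List ℕ} (hv : Pts v fl) :
    ∀ z, valid 15 z = true → ∀ i j k l, i < 6 → j < 6 → k < 6 → l < 6 →
    i ≠ j → i ≠ k → i ≠ l → j ≠ k → j ≠ l → k ≠ l →
    (0 < lam (Em v) z j → 0 < lam (Em v) z k → 0 < lam (Em v) z l → lam (Em v) z i < 0) ∧
    (lam (Em v) z j < 0 → lam (Em v) z k < 0 → lam (Em v) z l < 0 → 0 < lam (Em v) z i) := by
  intro z hz i j k l hi hj hk hl h1 h2 h3 h4 h5 h6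
  obtain ⟨p, hp, q, hq, hpq, hjp, hjq, hall⟩ := compl4 i hi j hj k hk l hl h1 h2 h3 h4 h5 h6
  obtain ⟨g, hg1, hg2, hg3⟩ := hv.hpair (dg z p) (dg_lt hz hp) (dg z q) (dg_lt hz hq)
    (dg_inj hz hp hq hpq)
  have hsum := lin6 v hz g
  have hpos : ∀ r < 6, r ≠ p → r ≠ q → 0 < g ⬝ᵥ v (dg z r) := fun r hr h7 h8 =>
    hg3 _ (dg_lt hz hr) (dg_inj hz hr hp h7) (dg_inj hz hr hq h8)
  have hnn : ∀ r < 6, 0 ≤ g ⬝ᵥ v (dg z r) := by
    intro r hr
    by_cases h7 : r = p
    · rw [h7, hg1]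
    · by_cases h8 : r = q
      · rw [h8, hg2]
      · exact (hpos r hr h7 h8).le
  constructor
  · intro hJ hK hL
    by_contra hI
    push Not at hI
    have : 0 < ∑ r ∈ Finset.range 6, (g ⬝ᵥ v (dg z r)) * lam (Em v) z r := by
      refine Finset.sum_pos' ?_ ⟨j, Finset.mem_range.2 hj, mul_pos (hpos j hj hjp hjq) hJ⟩
      intro r hr
      have hr := Finset.mem_range.1 hr
      rcases hall r hr with h | h | h | h | h | h
      · rw [h, hg1, zero_mul]
      · rw [h, hg2, zero_mul]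
      · rw [h]; exact mul_nonneg (hnn i hi) hI
      · rw [h]; exact mul_nonneg (hnn j hj) hJ.le
      · rw [h]; exact mul_nonneg (hnn k hk) hK.le
      · rw [h]; exact mul_nonneg (hnn l hl) hL.le
    linarith
  · intro hJ hK hL
    by_contra hI
    push Not at hI
    have : 0 < ∑ r ∈ Finset.range 6, -((g ⬝ᵥ v (dg z r)) * lam (Em v) z r) := by
      refine Finset.sum_pos' ?_ ⟨j, Finset.mem_range.2 hj, ?_⟩
      · intro r hr
        have hr := Finset.mem_range.1 hr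
        have hmn : ∀ s < 6, lam (Em v) z s ≤ 0 → 0 ≤ -((g ⬝ᵥ v (dg z s)) * lam (Em v) z s) := by
          intro s hs hle
          have := hnn s hs
          nlinarith
        rcases hall r hr with h | h | h | h | h | h
        · rw [h, hg1, zero_mul, neg_zero]
        · rw [h, hg2, zero_mul, neg_zero]
        · rw [h]; exact hmn i hi hI
        · rw [h]; exact hmn j hj hJ.le
        · rw [h]; exact hmn k hk hK.le
        · rw [h]; exact hmn l hl hL.le
      · have := hpos j hj hjp hjq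
        nlinarith
    rw [Finset.sum_neg_distrib, hsum, neg_zero] at this
    exact lt_irrefl _ this

theorem two_term {gi gj li lj : ℝ} (hi : 0 < gi) (hj : 0 < gj) (h : gi * li + gj * lj = 0) :
    (0 < lj → li < 0) ∧ (lj < 0 → 0 < li) := by
  constructor
  · intro h1
    by_contra h2
    push Not at h2
    nlinarith [mul_pos hj h1, mul_nonneg hi.le h2]
  · intro h1
    by_contra h2
    push Not at h2
    nlinarith [mul_pos hj (neg_pos.2 h1), mul_nonneg hi.le (neg_nonneg.2 h2)]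

theorem axF_aux {v : ℕ → Fin 5 → ℝ} {z i j : ℕ} (hz : valid 15 z = true) (hi : i < 6) (hj : j < 6)
    (hij : i ≠ j) (g : Fin 5 → ℝ) (hgi : 0 < g ⬝ᵥ v (dg z i)) (hgj : 0 < g ⬝ᵥ v (dg z j))
    (h0 : ∀ r < 6, r ≠ i → r ≠ j → g ⬝ᵥ v (dg z r) = 0) :
    (0 < lam (Em v) z j → lam (Em v) z i < 0) ∧ (lam (Em v) z j < 0 → 0 < lam (Em v) z i) := by
  have hsum := lin6 v hz g
  have : ∑ r ∈ Finset.range 6, (g ⬝ᵥ v (dg z r)) * lam (Em v) z r =
      (g ⬝ᵥ v (dg z i)) * lam (Em v) z i + (g ⬝ᵥ v (dg z j)) * lam (Em v) z j := by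
    have hsub : ({i, j} : Finset ℕ) ⊆ Finset.range 6 := by
      intro x hx
      rw [Finset.mem_insert, Finset.mem_singleton] at hx
      rw [Finset.mem_range]
      rcases hx with h | h <;> rw [h] <;> assumption
    rw [← Finset.sum_subset hsub, Finset.sum_pair hij]
    intro x hx hx'
    rw [Finset.mem_insert, Finset.mem_singleton, not_or] at hx'
    rw [h0 x (Finset.mem_range.1 hx) hx'.1 hx'.2, zero_mul]
  rw [this] at hsum
  exact two_term hgi hgj hsum

theorem axF_Em {v : ℕ → Fin 5 → ℝ} {fl : List ℕ} (hv : Pts v fl) :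
    ∀ z, valid 14 z = true → ∀ i j, i < 6 → j < 6 → i ≠ j →
    Mk z - 2 ^ dg z i - 2 ^ dg z j ∈ fl →
    (0 < lam (Em v) z j → lam (Em v) z i < 0) ∧
      (lam (Em v) z j < 0 → 0 < lam (Em v) z i) := by
  intro z hz i j hi hj hij hm
  have hz' := valid_mono hz
  obtain ⟨h0, h1, h2, h3, h4, h5⟩ := valid_iff hz
  -- the four remaining positions
  have hrem : ∀ i < 6, ∀ j < 6, i ≠ j → ∃ a b c d, a < b ∧ b < c ∧ c < d ∧ d < 6 ∧
      i ≠ a ∧ i ≠ b ∧ i ≠ c ∧ i ≠ d ∧ j ≠ a ∧ j ≠ b ∧ j ≠ c ∧ j ≠ d ∧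
      ∀ r < 6, r ≠ i → r ≠ j → r = a ∨ r = b ∨ r = c ∨ r = d := by
    intro i hi j hj hij
    obtain ⟨a, b, c, d, h1, h2, h3, h4⟩ := rem_fin ⟨i, hi⟩ ⟨j, hj⟩
      (fun h => hij (congrArg Fin.val h))
    refine ⟨a, b, c, d, h1.1, h1.2.1, h1.2.2, d.2, fun h => h2.1 (Fin.ext h),
      fun h => h2.2.1 (Fin.ext h), fun h => h2.2.2.1 (Fin.ext h), fun h => h2.2.2.2 (Fin.ext h),
      fun h => h3.1 (Fin.ext h), fun h => h3.2.1 (Fin.ext h), fun h => h3.2.2.1 (Fin.ext h),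
      fun h => h3.2.2.2 (Fin.ext h), fun r hr hri hrj => ?_⟩
    rcases h4 ⟨r, hr⟩ (fun h => hri (congrArg Fin.val h)) (fun h => hrj (congrArg Fin.val h))
      with h | h | h | h
    · exact Or.inl (congrArg Fin.val h)
    · exact Or.inr (Or.inl (congrArg Fin.val h))
    · exact Or.inr (Or.inr (Or.inl (congrArg Fin.val h)))
    · exact Or.inr (Or.inr (Or.inr (congrArg Fin.val h)))
  obtain ⟨a, b, c, d, hab, hbc, hcd, hd, hia, hib, hic, hid, hja, hjb, hjc, hjd, hall⟩ :=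
    hrem i hi j hj hij
  have hmono : ∀ r s, r < s → s < 6 → dg z r < dg z s := by
    intro r s hrs hs
    interval_cases s <;> interval_cases r <;> omega
  have hmask : Mk z - 2 ^ dg z i - 2 ^ dg z j =
      2 ^ dg z a + 2 ^ dg z b + 2 ^ dg z c + 2 ^ dg z d := by
    have hS : Mk z = ∑ r ∈ Finset.range 6, 2 ^ dg z r := by
      simp only [Finset.sum_range_succ, Finset.sum_range_zero, zero_add, Mk]
    have hset : Finset.range 6 = {i, j, a, b, c, d} := by
      ext r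
      simp only [Finset.mem_range, Finset.mem_insert, Finset.mem_singleton]
      constructor
      · intro hr
        by_cases h7 : r = i
        · exact Or.inl h7
        · by_cases h8 : r = j
          · exact Or.inr (Or.inl h8)
          · exact Or.inr (Or.inr (hall r hr h7 h8))
      · rintro (h | h | h | h | h | h) <;> omega
    rw [hS, hset, Finset.sum_insert (by simp [hij, hia, hib, hic, hid]),
      Finset.sum_insert (by simp [hja, hjb, hjc, hjd]),
      Finset.sum_insert (by simp; omega), Finset.sum_insert (by simp; omega),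
      Finset.sum_insert (by simp; omega), Finset.sum_singleton]
    generalize 2 ^ dg z i = x0
    generalize 2 ^ dg z j = x1
    generalize 2 ^ dg z a = x2
    generalize 2 ^ dg z b = x3
    generalize 2 ^ dg z c = x4
    generalize 2 ^ dg z d = x5
    omega
  rw [hmask] at hm
  have hdlt : ∀ r < 6, dg z r < 14 := by
    intro r hr
    interval_cases r <;> omega
  obtain ⟨g, ha0, hb0, hc0, hd0, hpos⟩ := hv.hfac _ _ _ _ (hmono a b hab (by omega))
    (hmono b c hbc (by omega)) (hmono c d hcd hd) (hdlt d hd) hm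
  refine axF_aux hz' hi hj hij g ?_ ?_ ?_
  · exact hpos _ (hdlt i hi) (dg_inj hz' hi (by omega) hia) (dg_inj hz' hi (by omega) hib)
      (dg_inj hz' hi (by omega) hic) (dg_inj hz' hi (by omega) hid)
  · exact hpos _ (hdlt j hj) (dg_inj hz' hj (by omega) hja) (dg_inj hz' hj (by omega) hjb)
      (dg_inj hz' hj (by omega) hjc) (dg_inj hz' hj (by omega) hjd)
  · intro r hr h7 h8
    rcases hall r hr h7 h8 with h | h | h | h
    · rw [h]; exact ha0
    · rw [h]; exact hb0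
    · rw [h]; exact hc0
    · rw [h]; exact hd0

theorem sys_Em {v : ℕ → Fin 5 → ℝ} {fl : List ℕ} (hv : Pts v fl) : Sys (Em v) fl where
  nz := Em_ne_zero hv
  axB := axB_Em hv
  axF := axF_Em hv
  axG := fun _ hz i j k hij hjk hk => axG_Em v hz i j k hij hjk hk

end Pool.Agent.Lib.MP_1c334d_co
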