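import Pool.Agent.Lib.MP_1c334d_co.Dim
import Pool.Agent.Lib.MP_1c334d_co.Points

/-!
# The polytope with fourteen vertices is not extendable
-/

namespace Pool.Agent.Lib.MP_1c334d_co

open Set Matrix

/-- homogeneous coordinates -/
noncomputable def hom (x : Euc 4) : Fin 5 → ℝ := Fin.cons 1 (fun j : Fin 4 => x j)

/-- the coefficients of the affine function `M - l` -/
noncomputable def cof (l : Euc 4 →ₗ[ℝ] ℝ) (M : ℝ) : Fin 5 → ℝ :=
  Fin.cons M (fun j : Fin 4 => - l (EuclideanSpace.single j 1))

theorem cof_dot (l : Euc 4 →ₗ[ℝ] ℝ) (M : ℝ) (x : Euc 4) : cof l M ⬝ᵥ hom x = M - l x := by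
  have hx : x = ∑ j : Fin 4, x j • EuclideanSpace.single j (1 : ℝ) := by
    ext k
    fin_cases k <;> simp [Fin.sum_univ_succ]
  have h1 : l x = ∑ j : Fin 4, x j * l (EuclideanSpace.single j 1) := by
    conv_lhs => rw [hx]
    rw [map_sum]
    refine Finset.sum_congr rfl fun j _ => ?_
    rw [map_smul, smul_eq_mul]
  rw [h1, dotProduct, Fin.sum_univ_succ]
  simp only [cof, hom, Fin.cons_zero, Fin.cons_succ, mul_one]
  rw [sub_eq_add_neg, ← Finset.sum_neg_distrib]
  congr 1
  refine Finset.sum_congr rfl fun j _ => ?_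
  ring

/-- a nonempty face is the set of maximum points of a functional -/
theorem face_sup {d : ℕ} {Q F : Set (Euc d)} (hF : IsFace Q F) (hne : F.Nonempty) :
    ∃ (l : Euc d →ₗ[ℝ] ℝ) (M : ℝ), (∀ x ∈ F, l x = M) ∧ ∀ x ∈ Q, x ∉ F → l x < M := by
  rcases hF with h | ⟨l, hl⟩
  · exact absurd h hne.ne_empty
  · obtain ⟨x0, hx0⟩ := hne
    have hx0' := hx0
    rw [hl] at hx0'
    refine ⟨l, l x0, fun x hx => ?_, fun x hx hxF => ?_⟩
    · rw [hl] at hx
      exact le_antisymm (hx0'.2 x hx.1) (hx.2 x0 hx0'.1)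
    · refine lt_of_le_of_ne (hx0'.2 x hx) fun he => hxF ?_
      rw [hl]
      exact ⟨hx, fun y hy => by rw [he]; exact hx0'.2 y hy⟩

theorem not_extendable_P14 : ¬ Extendable 4 P14 := by
  rintro ⟨Q, ⟨⟨TQ, hTQ, hQ⟩, _⟩, hN, hcard, v, hv, hcomb⟩
  have hvfin : (vert Q).Finite := by
    rw [hQ]
    exact hTQ.subset (vert_subset TQ)
  have hQconv : Convex ℝ Q := by rw [hQ]; exact convex_convexHull ℝ TQ
  set W : Set (Euc 4) := vert Q \ {v} with hW
  have hWfin : W.Finite := hvfin.subset (fun x hx => hx.1)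
  have hWQ : convexHull ℝ W ⊆ Q :=
    convexHull_min (fun x hx => extremePoints_subset hx.1) hQconv
  have hvertR : vert (convexHull ℝ W) = W := by
    apply Subset.antisymm (vert_subset W)
    intro x hx
    exact inter_extremePoints_subset_extremePoints_of_subset hWQ
      ⟨subset_convexHull ℝ W hx, hx.1⟩
  obtain ⟨φ, h1, h2, h3, h4⟩ := iso_vertices S14_finite hWfin hcomb
  have hP : vert (convexHull ℝ S14) = S14 := vert_P14
  rw [hP] at h1 h2 h3 h4
  rw [hvertR] at h1 h3
  -- the vertices of `Q`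
  let y : ℕ → Euc 4 := fun k => if k < 14 then φ (pt k) else v
  have hy14 : ∀ k < 14, y k = φ (pt k) := fun k hk => if_pos hk
  have hyv : y 14 = v := if_neg (by norm_num)
  have hyW : ∀ k < 14, y k ∈ W := by
    intro k hk
    rw [hy14 k hk]
    exact h1 _ (pt_mem hk)
  have hyQ : ∀ k < 15, y k ∈ vert Q := by
    intro k hk
    by_cases hk' : k < 14
    · exact (hyW k hk').1
    · have : k = 14 := by omega
      rw [this, hyv]
      exact hv
  have hinj : ∀ i < 15, ∀ j < 15, i ≠ j → y i ≠ y j := by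
    intro i hi j hj hij he
    by_cases hi' : i < 14
    · by_cases hj' : j < 14
      · rw [hy14 i hi', hy14 j hj'] at he
        exact hij (pt_inj hi' hj' (h2 (pt_mem hi') (pt_mem hj') he))
      · have hj14 : j = 14 := by omega
        rw [hj14, hyv] at he
        exact (hyW i hi').2 he
    · have hi14 : i = 14 := by omega
      by_cases hj' : j < 14
      · rw [hi14, hyv] at he
        exact (hyW j hj').2 he.symm
      · omega
  -- the system of vectors
  have hsys : Pts (fun k => hom (y k)) facetMasks := by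
    refine ⟨?_, ?_⟩
    · intro i hi j hj hij
      have hS : (({y i, y j} : Finset (Euc 4)) : Set (Euc 4)) ⊆ vert Q := by
        intro x hx
        simp only [Finset.coe_insert, Finset.coe_singleton, mem_insert_iff,
          mem_singleton_iff] at hx
        rcases hx with h | h <;> rw [h]
        · exact hyQ i hi
        · exact hyQ j hj
      obtain ⟨F, hF, hvF⟩ := hN {y i, y j} hS (Finset.card_le_two)
      rw [vert_face hF] at hvF
      have hmem : ∀ x, x ∈ vert Q → (x ∈ F ↔ x = y i ∨ x = y j) := by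
        intro x hx
        have : x ∈ vert Q ∩ F ↔ x ∈ (({y i, y j} : Finset (Euc 4)) : Set (Euc 4)) := by
          rw [hvF]
        simp only [Finset.coe_insert, Finset.coe_singleton, mem_insert_iff,
          mem_singleton_iff, mem_inter_iff] at this
        constructor
        · intro hxF
          exact this.1 ⟨hx, hxF⟩
        · intro h
          exact (this.2 h).2
      have hFi : y i ∈ F := (hmem _ (hyQ i hi)).2 (Or.inl rfl)
      have hFj : y j ∈ F := (hmem _ (hyQ j hj)).2 (Or.inr rfl)
      obtain ⟨l, M, hl1, hl2⟩ := face_sup hF ⟨_, hFi⟩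
      refine ⟨cof l M, ?_, ?_, ?_⟩
      · rw [cof_dot, hl1 _ hFi, sub_self]
      · rw [cof_dot, hl1 _ hFj, sub_self]
      · intro k hk hki hkj
        rw [cof_dot, sub_pos]
        refine hl2 _ (extremePoints_subset (hyQ k hk)) fun hkF => ?_
        rcases (hmem _ (hyQ k hk)).1 hkF with h | h
        · exact hinj k hk i hi hki h
        · exact hinj k hk j hj hkj h
    · intro a b c d hab hbc hcd hd hm
      obtain ⟨l0, M0, hsup⟩ := sup_of_mem (facet_mem _ hm)
      have hbit : ∀ k, Nat.testBit (2 ^ a + 2 ^ b + 2 ^ c + 2 ^ d) k = true ↔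
          k = a ∨ k = b ∨ k = c ∨ k = d := by
        intro k
        have e : 2 ^ a + 2 ^ b + 2 ^ c + 2 ^ d = 2 ^ a ||| 2 ^ b ||| 2 ^ c ||| 2 ^ d := by
          have hb := (mask4 d hd c hcd b hbc a hab)
          exact hb
        rw [e]
        simp only [Nat.testBit_or, Bool.or_eq_true, Nat.testBit_two_pow, decide_eq_true_eq]
        constructor
        · rintro (((h | h) | h) | h) <;> subst h <;> simp
        · rintro (h | h | h | h) <;> subst h <;> simp
      obtain ⟨F, hF, hFne, hFk⟩ := face_of_sup hsup (show a < 14 by omega)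
        ((hbit a).2 (Or.inl rfl))
      obtain ⟨G, hG, hGk⟩ := h4 F hF
      have hG' : ∀ k < 14, (y k ∈ G ↔ k = a ∨ k = b ∨ k = c ∨ k = d) := by
        intro k hk
        rw [hy14 k hk, hGk _ (pt_mem hk), hFk k hk, hbit k]
      have hGa : y a ∈ G := (hG' a (by omega)).2 (by simp)
      obtain ⟨l, M, hl1, hl2⟩ := face_sup hG ⟨_, hGa⟩
      refine ⟨cof l M, ?_, ?_, ?_, ?_, ?_⟩
      · rw [cof_dot, hl1 _ hGa, sub_self]
      · rw [cof_dot, hl1 _ ((hG' b (by omega)).2 (by simp)), sub_self]
      · rw [cof_dot, hl1 _ ((hG' c (by omega)).2 (by simp)), sub_self]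
      · rw [cof_dot, hl1 _ ((hG' d (by omega)).2 (by simp)), sub_self]
      · intro k hk hka hkb hkc hkd
        rw [cof_dot, sub_pos]
        refine hl2 _ (subset_convexHull ℝ W (hyW k hk)) fun hkG => ?_
        rcases (hG' k hk).1 hkG with h | h | h | h
        · exact hka h
        · exact hkb h
        · exact hkc h
        · exact hkd h
  exact (sys_Em hsys).false_of_chk _ _ chk_cert

end Pool.Agent.Lib.MP_1c334d_co
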