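import Pool.Agent.Lib.MP_1c334d_co.Poly
import Pool.Agent.Lib.MP_1c334d_co.Data

/-!
# The polytope with fourteen vertices
-/

namespace Pool.Agent.Lib.MP_1c334d_co

open Set

/-- coordinates of the fourteen points -/
def crd : List (List ℤ) :=
  [[-20, -3, 11, -32],
   [-10, -17, 4, 34],
   [7, -18, -18, -29],
   [19, -5, 29, 18],
   [16, 12, -34, -4],
   [1, 20, 32, -11],
   [-15, 14, -24, 24],
   [28, 17, 27, 5],
   [4, 33, -27, 7],
   [-23, 24, 21, -18],
   [-33, -2, -11, 26],
   [-18, -27, -1, -28],
   [10, -31, 13, 25],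
   [30, -11, -22, -17]]

/-- the `k`-th coordinate of the `i`-th point -/
def pcoord (i k : ℕ) : ℤ := (crd.getD i []).getD k 0

/-- value of an integral linear form at the `i`-th point -/
def pval (i : ℕ) (a b c d : ℤ) : ℤ :=
  a * pcoord i 0 + b * pcoord i 1 + c * pcoord i 2 + d * pcoord i 3

/-- supporting functionals: the mask of the supported set, the coefficients and the maximum -/
def supTable : List (ℕ × ℤ × ℤ × ℤ × ℤ × ℤ) :=
  [(1, -102888, -23946, 68353, -80610, 5461001), (2, -72376, -81851, 32731, 137024, 6904967),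
   (4, 49754, -99255, -43384, -116084, 6282216), (8, 93964, -81199, 188212, 16494, 7946351),
   (16, 89896, 76241, -136027, -59678, 7216858), (32, 3155, 152478, 136401, -40954, 7868041),
   (64, -89609, 97015, -97188, 119771, 7909361), (128, 109767, 110663, 133053, 79738, 8945868),
   (256, 13480, 137557, -92190, -22504, 6924903), (512, -73709, 109577, 135239, -80266, 8609962),
   (1024, -111576, 37846, -46096, 137547, 7689594),
   (2048, -11086, -130771, 9100, -137324, 7566337),
   (4096, 26645, -195608, 101672, 69513, 9389859),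
   (8192, 184835, -70099, -56228, -141227, 9954014), (3, -40579, -27648, 52832, 5887, 1287292),
   (5, 9563, -577, 6147, -29531, 823080), (9, -5990, -7693, 15393, -1177, 349866),
   (17, 104, 1981, -1181, -3093, 77962), (33, -15179, -15456, 54884, -22777, 1682536),
   (65, -37133, 11514, -34709, -21873, 1026255), (129, 13968, -10345, 16639, -19724, 565872),
   (257, -43585, 19714, -40911, -31238, 1362153), (513, -57587, -10947, 60669, -34563, 2957956),
   (1025, -38572, 13666, -31159, -20700, 1050093), (2049, -35472, -10853, 2734, -39180, 2025833),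
   (4097, -33629, -26210, 53306, 2954, 1243048), (8193, 8848, 13264, -529, -23583, 532085),
   (6, -2766, -36743, -38167, 13165, 947233), (10, -16883, 4795, 47723, 47563, 1895349),
   (18, 3369, -12700, -17662, 10275, 460912), (34, -10349, 8665, 17388, 15414, 549813),
   (66, 5133, -2861, -27667, 66032, 2131727), (130, -8245, 30746, 21060, 41946, 1070172),
   (258, 17011, 5241, -6223, 25671, 588715), (514, -31852, -16449, 44761, 9627, 1104515),
   (1026, -26763, -5280, -4621, 75708, 2912978), (2050, -22121, -18630, 19284, 4304, 761392),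
   (4098, -51913, -85081, 32295, 49281, 3770241), (8194, 682, -73159, -87571, 36572, 2130047),
   (12, 49403, -45892, 51186, -51106, 1732603), (20, -399, 18509, -37056, -45783, 1658760),
   (36, 5167, -1466, 4508, -7705, 204858), (68, -17253, -2845, -27349, -8540, 670381),
   (132, 60552, -51099, 63395, -68703, 2194923), (260, -6514, 2593, -8375, -6310, 241468),
   (516, 4498, 10016, -2907, -15669, 357925), (1028, -8551, -21540, -28480, 3672, 734015),
   (2052, 15755, -62090, -6488, -54639, 2929220), (4100, -3549, -60896, -50213, 14363, 1558592),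
   (8196, 42911, -44227, -22059, -63800, 3343725), (24, 26515, 4077, -9546, 26871, 690244),
   (40, -25258, 17348, 61871, 37033, 1894211), (72, 10257, 5385, -2613, 17989, 415983),
   (136, 59529, -8404, 72990, 15761, 3573479), (264, 13401, 3584, -4510, 17067, 413115),
   (520, -29367, -16578, 49401, 9929, 1136268), (1032, -18141, 37556, 36193, 48965, 1398508),
   (2056, 78620, -88179, 84635, -76262, 3016374), (4104, 36407, -76957, 99674, -11205, 3765374),
   (8200, 76597, -79807, 71259, -66080, 2731449), (48, 35659, 60582, -7078, -73911, 1833824),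
   (80, -22200, -4999, -69237, 506, 1936846), (144, 19017, 2065, -6038, 14421, 476660),
   (272, 26444, 47937, -59331, -24912, 3115250), (528, 44199, 85674, -16589, -114862, 2758746),
   (1040, -2701, -17223, -25157, 6838, 578094), (2064, -35892, 6453, -46661, -23798, 1184830),
   (4112, 64681, -6369, -37517, 64742, 1975078), (8208, 36325, 17322, -30295, -19492, 1897062),
   (96, -18251, 53175, 30366, 49358, 1474023), (160, 7726, 85820, 56798, 20803, 3312829),
   (288, 39242, 60577, -5179, -67266, 1824980), (544, -687, 69160, 63587, -58047, 4055814),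
   (1056, -36095, 79635, 64046, 88614, 2631323), (2080, 6182, -5978, 9433, -8693, 284101),
   (4128, -31750, -26976, 60786, 1803, 1354049), (8224, 53058, 72348, -2207, -97488, 2501762),
   (192, -6119, 25070, 13177, 25480, 738037), (320, -34356, 56041, -53124, 33611, 3381554),
   (576, -4553, 14399, 6320, 11067, 383809), (1088, -56071, 40087, -40262, 77760, 4234811),
   (2112, -72951, 13182, -86533, -44459, 2288589), (4160, 16459, 1336, -10101, 22382, 551411),
   (8256, 227, -36846, -48323, 20359, 1129119), (384, 16005, 36013, 3845, 7771, 1203031),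
   (640, -10907, 42709, 18720, 32300, 1087597), (1152, -5116, 14559, 10451, 17223, 472547),
   (2176, 10167, -8968, 11615, -12070, 385475), (4224, 43531, 1142, -13181, 32692, 1045855),
   (8320, 88590, 11437, 11288, -31644, 2821505), (768, -13010, 73331, -3417, -18909, 2327779),
   (1280, -25617, 10935, -19625, -13216, 695750), (2304, -3055, 767, -3580, -2054, 95373),
   (4352, 31189, 4914, -14739, 39829, 963674), (8448, 26303, 36338, -2526, -38651, 1102011),
   (1536, -36804, 21076, 8237, 10080, 1343853), (2560, -9190, -4844, 8562, 1273, 252002),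
   (4608, -19106, -13232, 30465, 3406, 700327), (8704, 18536, 33666, -5697, -49069, 1145261),
   (3072, -12759, -10507, -14446, -1355, 565737), (5120, -6574, -32267, -26867, 8253, 791591),
   (9216, -1315, -47400, -61481, 23722, 1431258), (6144, 32277, -101177, 43725, -36238, 3121732),
   (10240, 5093, -5916, 4797, -4461, 188169), (12288, 92859, -99145, -7318, 3105, 3984576),
   (2563, -382, -204, 362, 53, 10538), (4611, -27973, -18913, 36880, 4138, 889463),
   (6147, -12224, -8531, 15590, 1696, 387291), (277, -416, 569, -789, -1038, 31150),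
   (533, 637, 2281, -957, -3579, 84418), (165, 716, -399, 765, -1044, 28700),
   (8229, 252, 84, 141, -485, 11779), (2181, 10442, -7657, 12165, -14668, 417322),
   (2309, -3758, 1403, -4581, -3446, 130832), (8709, 1690, 3142, -597, -5271, 118879),
   (2089, 0, -84, 149, -57, 3715), (4137, -4792, -5439, 11295, -546, 253874),
   (6153, -1198, -2170, 3949, -574, 92277), (785, 91, 3093, -1797, -4662, 118318),
   (2209, 2810, -2289, 3709, -4012, 119850), (4641, -21071, -17367, 38898, 1194, 863191),
   (8737, 6906, 10038, -73, -17827, 401427), (1345, -6609, 2503, -5514, -3616, 179729),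
   (2369, -16046, 4831, -15597, -9782, 447884), (3137, -14478, 4180, -13598, -8475, 398642),
   (1793, -16847, 7315, -12633, -8694, 454240), (3585, -638, -332, 586, 85, 17482),
   (5126, -458, -2867, -2609, 833, 71205), (9222, -367, -4737, -5114, 1762, 123651),
   (12294, -1941, -29139, -30444, 10570, 752377), (554, -1987, 70, 3319, 1637, 87614),
   (1066, -4663, 5660, 8211, 8623, 276436), (202, 7, 83, 41, 139, 3409),
   (330, 6753, 2693, -2129, 10933, 249895), (1162, -2177, 6980, 5253, 9497, 247020),
   (4362, 6677, 1787, -2461, 9597, 219305), (4618, -21493, -12478, 35489, 7137, 811670),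
   (4178, 570, -456, -967, 1009, 32490), (8274, 106, -2586, -3427, 1526, 81078),
   (12306, 2693, -9658, -13268, 7740, 347344), (1570, -3699, 2935, 5858, 5154, 185763),
   (1218, -6075, 23683, 15766, 32310, 819743), (4418, 3581, 761, -1633, 5141, 119515),
   (9282, 191, -27039, -35318, 14974, 825597), (3586, -8170, -4308, 7614, 1135, 223982),
   (7170, -1345, -5587, -4282, 1420, 139581), (2188, 24044, -22321, 25011, -24976, 844192),
   (8332, 21151, -19571, 21852, -21839, 740330), (10252, 4208, -4000, 4323, -4291, 148081),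
   (1108, -1562, -1599, -4108, -148, 96084), (2132, -6816, 415, -9559, -4162, 237578),
   (2324, -2340, 621, -3005, -1826, 79486), (8724, 11167, 24625, -7167, -38157, 870478),
   (9236, -1069, -8403, -11471, 3127, 259566), (8356, 4199, -1151, 3602, -6176, 164379),
   (3140, -8875, -1661, -13682, -4230, 336719), (7172, -4771, -23813, -19976, 6000, 580805),
   (14340, 3621, -5077, 2816, -3040, 154205), (408, 14653, 2328, -5271, 14895, 382018),
   (4248, 3239, 414, -1131, 3117, 82778), (4376, 8623, 1335, -3144, 8859, 225448),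
   (1192, -11301, 24916, 22729, 30845, 875052), (2216, 3372, -3605, 5575, -4624, 160536),
   (4648, -5887, -4170, 10593, 1155, 236984), (456, 3497, 2609, -525, 6917, 162679),
   (12424, 3044, -237, -544, 1790, 75465), (14344, 48194, -55999, 45628, -41740, 1767573),
   (816, 14995, 26148, -3111, -31581, 785794), (8496, 3355, 4907, -410, -5447, 148292),
   (8752, 17309, 29527, -3557, -36883, 899738), (2384, -26736, 5417, -34097, -17810, 867766),
   (4432, 12308, 1031, -7501, 16232, 399406), (9296, -70, -7221, -9578, 3859, 222444),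
   (8592, 1911, 2488, -206, -2534, 77572), (12432, 37248, 965, -11506, 27785, 887612),
   (736, -1819, 7051, 3118, 5366, 179951), (1248, -11143, 31775, 18958, 30686, 893467),
   (1632, -5289, 14349, 8290, 13306, 400605), (928, -145, 579, 252, 432, 14747),
   (8608, 21037, 28943, -1910, -30670, 876147), (960, -8943, 35079, 15350, 26502, 892899),
   (1856, -2161, 1117, -1478, -906, 61781)]

/-- the check of one row -/
def okRow (r : ℕ × ℤ × ℤ × ℤ × ℤ × ℤ) : Bool :=
  (List.range 14).all fun k =>
    bif Nat.testBit r.1 k then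
      decide (pval k r.2.1 r.2.2.1 r.2.2.2.1 r.2.2.2.2.1 = r.2.2.2.2.2)
    else decide (pval k r.2.1 r.2.2.1 r.2.2.2.1 r.2.2.2.2.1 < r.2.2.2.2.2)

theorem supTable_ok : supTable.all okRow = true := by
  decide +kernel

theorem pair_mem : ∀ i < 14, ∀ j < 14, ∃ r ∈ supTable, r.1 = 2 ^ i ||| 2 ^ j := by
  decide +kernel

theorem facet_mem : ∀ m ∈ facetMasks, ∃ r ∈ supTable, r.1 = m := by
  decide +kernel

/-- the fourteen points -/
noncomputable def pt (i : ℕ) : Euc 4 := WithLp.toLp 2 (fun k : Fin 4 => (pcoord i k : ℝ))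

/-- a linear functional given by four integers -/
noncomputable def lin (a b c d : ℤ) : Euc 4 →ₗ[ℝ] ℝ where
  toFun x := a * x 0 + b * x 1 + c * x 2 + d * x 3
  map_add' x y := by
    simp only [PiLp.add_apply]
    ring
  map_smul' r x := by
    simp only [PiLp.smul_apply, smul_eq_mul, RingHom.id_apply]
    ring

theorem lin_pt (a b c d : ℤ) (i : ℕ) : lin a b c d (pt i) = (pval i a b c d : ℝ) := by
  unfold pval
  push_cast
  rfl

theorem sup_of_mem {m : ℕ} (h : ∃ r ∈ supTable, r.1 = m) :
    ∃ (l : Euc 4 →ₗ[ℝ] ℝ) (M : ℝ), ∀ k < 14,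
      (Nat.testBit m k = true → l (pt k) = M) ∧ (Nat.testBit m k = false → l (pt k) < M) := by
  obtain ⟨r, hr, rfl⟩ := h
  have h1 := List.all_eq_true.1 supTable_ok r hr
  refine ⟨lin r.2.1 r.2.2.1 r.2.2.2.1 r.2.2.2.2.1, r.2.2.2.2.2, fun k hk => ?_⟩
  have h2 := List.all_eq_true.1 h1 k (List.mem_range.2 hk)
  constructor
  · intro ht
    rw [ht, cond_true, decide_eq_true_eq] at h2
    rw [lin_pt, h2]
  · intro ht
    rw [ht, cond_false, decide_eq_true_eq] at h2
    rw [lin_pt]
    exact_mod_cast h2

/-- the set of the fourteen points -/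
def S14 : Set (Euc 4) := {x | ∃ k < 14, pt k = x}

/-- the polytope -/
def P14 : Set (Euc 4) := convexHull ℝ S14

theorem S14_finite : S14.Finite := by
  have : S14 = (fun k => pt k) '' {k | k < 14} := by
    ext x
    simp only [S14, mem_ofPred_eq, mem_image]
  rw [this]
  exact (finite_lt_nat 14).image _

theorem pt_mem {k : ℕ} (hk : k < 14) : pt k ∈ S14 := ⟨k, hk, rfl⟩

theorem le_of_hull {l : Euc 4 →ₗ[ℝ] ℝ} {M : ℝ} (h : ∀ k < 14, l (pt k) ≤ M) :
    ∀ x ∈ P14, l x ≤ M := by
  intro x hx
  have hconv : Convex ℝ {x : Euc 4 | l x ≤ M} := convex_halfSpace_le l.isLinear M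
  have : S14 ⊆ {x : Euc 4 | l x ≤ M} := by
    rintro _ ⟨k, hk, rfl⟩
    exact h k hk
  exact convexHull_min this hconv hx

/-- the face of a supporting functional -/
theorem face_of_sup {m : ℕ} {l : Euc 4 →ₗ[ℝ] ℝ} {M : ℝ} (h : ∀ k < 14,
      (Nat.testBit m k = true → l (pt k) = M) ∧ (Nat.testBit m k = false → l (pt k) < M))
    {k0 : ℕ} (hk0 : k0 < 14) (hm : Nat.testBit m k0 = true) :
    ∃ F, IsFace P14 F ∧ F.Nonempty ∧ ∀ k < 14, (pt k ∈ F ↔ Nat.testBit m k = true) := by
  have hle : ∀ k < 14, l (pt k) ≤ M := by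
    intro k hk
    cases ht : Nat.testBit m k
    · exact ((h k hk).2 ht).le
    · exact ((h k hk).1 ht).le
  have hP := le_of_hull hle
  have hmem : ∀ k < 14, pt k ∈ P14 := fun k hk => subset_convexHull ℝ S14 (pt_mem hk)
  have key : ∀ k < 14, (pt k ∈ {x | x ∈ P14 ∧ ∀ y ∈ P14, l y ≤ l x} ↔
      Nat.testBit m k = true) := by
    intro k hk
    constructor
    · rintro ⟨_, h2⟩
      have h3 := h2 _ (hmem k0 hk0)
      rw [(h k0 hk0).1 hm] at h3
      cases ht : Nat.testBit m k
      · have := (h k hk).2 ht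
        linarith
      · rfl
    · intro ht
      refine ⟨hmem k hk, fun y hy => ?_⟩
      rw [(h k hk).1 ht]
      exact hP y hy
  exact ⟨_, Or.inr ⟨l, rfl⟩, ⟨pt k0, (key k0 hk0).2 hm⟩, key⟩

theorem testBit_pair (i j k : ℕ) :
    Nat.testBit (2 ^ i ||| 2 ^ j) k = true ↔ k = i ∨ k = j := by
  rw [Nat.testBit_or, Bool.or_eq_true, Nat.testBit_two_pow, Nat.testBit_two_pow,
    decide_eq_true_eq, decide_eq_true_eq]
  constructor
  · rintro (h | h)
    · exact Or.inl h.symm
    · exact Or.inr h.symm
  · rintro (h | h)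
    · exact Or.inl h.symm
    · exact Or.inr h.symm

theorem face_pair {i j : ℕ} (hi : i < 14) (hj : j < 14) :
    ∃ F, IsFace P14 F ∧ F.Nonempty ∧ ∀ k < 14, (pt k ∈ F ↔ k = i ∨ k = j) := by
  obtain ⟨l, M, h⟩ := sup_of_mem (pair_mem i hi j hj)
  obtain ⟨F, hF, hne, hk⟩ := face_of_sup h hi ((testBit_pair i j i).2 (Or.inl rfl))
  exact ⟨F, hF, hne, fun k hk' => (hk k hk').trans (testBit_pair i j k)⟩

theorem pt_inj {i j : ℕ} (hi : i < 14) (hj : j < 14) (h : pt i = pt j) : i = j := by
  obtain ⟨F, _, _, hk⟩ := face_pair hi hi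
  have h1 := (hk i hi).2 (Or.inl rfl)
  rw [h, hk j hj] at h1
  rcases h1 with h1 | h1 <;> exact h1.symm

theorem pt_vert {i : ℕ} (hi : i < 14) : pt i ∈ vert P14 := by
  obtain ⟨F, hF, hne, hk⟩ := face_pair hi hi
  obtain ⟨w, hw, hwF⟩ := exists_vert_mem S14_finite hF hne
  obtain ⟨k, hk', rfl⟩ := vert_subset S14 hw
  rw [hk k hk'] at hwF
  rcases hwF with h | h <;> (subst h; exact hw)

theorem vert_P14 : vert P14 = S14 := by
  apply Subset.antisymm (vert_subset S14)
  rintro _ ⟨k, hk, rfl⟩
  exact pt_vert hk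

theorem vert_face14 {F : Set (Euc 4)} (hF : IsFace P14 F) {i j : ℕ} (hi : i < 14) (hj : j < 14)
    (hk : ∀ k < 14, (pt k ∈ F ↔ k = i ∨ k = j)) : vert F = {pt i, pt j} := by
  rw [vert_face hF, vert_P14]
  ext x
  simp only [mem_inter_iff, mem_insert_iff, mem_singleton_iff]
  constructor
  · rintro ⟨⟨k, hk', rfl⟩, hxF⟩
    rcases (hk k hk').1 hxF with h | h
    · left; rw [h]
    · right; rw [h]
  · rintro (h | h)
    · rw [h]; exact ⟨pt_mem hi, (hk i hi).2 (Or.inl rfl)⟩
    · rw [h]; exact ⟨pt_mem hj, (hk j hj).2 (Or.inr rfl)⟩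

theorem neighborly_P14 : Neighborly 4 P14 := by
  intro S hS hcard
  rw [vert_P14] at hS
  have hcard' : S.card ≤ 2 := hcard
  have hcases : S.card = 0 ∨ S.card = 1 ∨ S.card = 2 := by omega
  rcases hcases with h | h | h
  · rw [Finset.card_eq_zero] at h
    subst h
    refine ⟨∅, Or.inl rfl, ?_⟩
    rw [Finset.coe_empty, vert]
    exact extremePoints_empty
  · rw [Finset.card_eq_one] at h
    obtain ⟨x, rfl⟩ := h
    obtain ⟨i, hi, rfl⟩ := hS (by simp : x ∈ (({x} : Finset (Euc 4)) : Set (Euc 4)))
    obtain ⟨F, hF, _, hk⟩ := face_pair hi hi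
    refine ⟨F, hF, ?_⟩
    rw [vert_face14 hF hi hi hk]
    simp
  · rw [Finset.card_eq_two] at h
    obtain ⟨x, y, _, rfl⟩ := h
    obtain ⟨i, hi, rfl⟩ := hS (by simp : x ∈ (({x, y} : Finset (Euc 4)) : Set (Euc 4)))
    obtain ⟨j, hj, rfl⟩ := hS (by simp : y ∈ (({pt i, y} : Finset (Euc 4)) : Set (Euc 4)))
    obtain ⟨F, hF, _, hk⟩ := face_pair hi hj
    refine ⟨F, hF, ?_⟩
    rw [vert_face14 hF hi hj hk]
    simp

theorem ncard_vert_P14 : (vert P14).ncard = 14 := by
  rw [vert_P14]
  have h1 : S14 = (fun k => pt k) '' {k | k < 14} := by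
    ext x
    simp only [S14, mem_ofPred_eq, mem_image]
  have h2 : InjOn (fun k => pt k) {k | k < 14} := fun i hi j hj h => pt_inj hi hj h
  rw [h1, ncard_image_of_injOn h2]
  have h3 : ({k | k < 14} : Set ℕ) = ((Finset.range 14 : Finset ℕ) : Set ℕ) := by
    ext k; simp
  rw [h3, ncard_coe_finset, Finset.card_range]

end Pool.Agent.Lib.MP_1c334d_co
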