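import Pool.Agent.Lib.MP_1c334d_co.Defs

/-!
# Faces and vertices of polytopes
-/

namespace Pool.Agent.Lib.MP_1c334d_co

open Set

variable {d : ℕ}

theorem IsFace.isExposed {P F : Set (Euc d)} (h : IsFace P F) : IsExposed ℝ P F := by
  intro hne
  rcases h with h | ⟨l, hl⟩
  · exact absurd h hne.ne_empty
  · exact ⟨LinearMap.toContinuousLinearMap l, hl⟩

theorem vert_face {P F : Set (Euc d)} (h : IsFace P F) : vert F = vert P ∩ F := by
  have he : IsExtreme ℝ P F := h.isExposed.isExtreme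
  apply Subset.antisymm
  · intro x hx
    exact ⟨he.extremePoints_subset_extremePoints hx, extremePoints_subset hx⟩
  · rintro x ⟨hx, hxF⟩
    exact inter_extremePoints_subset_extremePoints_of_subset he.subset ⟨hxF, hx⟩

theorem exists_vert_mem {S : Set (Euc d)} (hS : S.Finite) {F : Set (Euc d)}
    (h : IsFace (convexHull ℝ S) F) (hne : F.Nonempty) : ∃ w ∈ vert (convexHull ℝ S), w ∈ F := by
  have hc : IsCompact F := h.isExposed.isCompact (hS.isCompact_convexHull ℝ)
  obtain ⟨w, hw⟩ := hc.extremePoints_nonempty hne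
  have hw' : w ∈ vert F := hw
  rw [vert_face h] at hw'
  exact ⟨w, hw'.1, hw'.2⟩

theorem vert_subset (S : Set (Euc d)) : vert (convexHull ℝ S) ⊆ S :=
  extremePoints_convexHull_subset

theorem vert_isFace {S : Set (Euc d)} (hS : S.Finite) {w : Euc d}
    (hw : w ∈ vert (convexHull ℝ S)) : IsFace (convexHull ℝ S) {w} := by
  have hwS : w ∈ S := vert_subset S hw
  have hw1 : w ∉ convexHull ℝ (S \ {w}) := by
    have h1 := ((convex_convexHull ℝ S).mem_extremePoints_iff_mem_sdiff_convexHull_sdiff).1 hw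
    intro h2
    apply h1.2
    refine convexHull_mono ?_ h2
    rintro x ⟨hx, hxw⟩
    exact ⟨subset_convexHull ℝ S hx, hxw⟩
  have hins : insert w (S \ {w}) = S := by
    rw [insert_sdiff_singleton, insert_eq_of_mem hwS]
  rcases (S \ {w}).eq_empty_or_nonempty with he | hne
  · right
    refine ⟨0, ?_⟩
    have hSw : S = {w} := by rw [← hins, he]; simp
    rw [hSw, convexHull_singleton]
    ext x
    simp
  · have hfin : (S \ {w}).Finite := hS.subset sdiff_subset
    obtain ⟨f, u, h1, h2⟩ := geometric_hahn_banach_point_closed (convex_convexHull ℝ (S \ {w}))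
      (hfin.isCompact_convexHull ℝ).isClosed hw1
    right
    refine ⟨-(f : Euc d →ₗ[ℝ] ℝ), ?_⟩
    have key : ∀ x ∈ convexHull ℝ S, f w ≤ f x ∧ (f x ≤ f w → x = w) := by
      intro x hx
      rw [← hins, convexHull_insert hne, mem_convexJoin] at hx
      obtain ⟨a, ha, b, hb, hx⟩ := hx
      rw [mem_singleton_iff] at ha
      subst ha
      obtain ⟨s, t, hs, ht, hst, hx⟩ := hx
      have h3 := h2 b hb
      have hfx : f x = s * f a + t * f b := by
        rw [← hx, map_add, map_smul, map_smul, smul_eq_mul, smul_eq_mul]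
      have hs1 : s = 1 - t := by linarith
      have hfx' : f x = f a + t * (f b - f a) := by rw [hfx, hs1]; ring
      have hpos : 0 < f b - f a := by linarith
      constructor
      · rw [hfx']
        nlinarith
      · intro h4
        have ht0 : t = 0 := by
          rw [hfx'] at h4
          by_contra hne0
          have : 0 < t := lt_of_le_of_ne ht (Ne.symm hne0)
          nlinarith [mul_pos this hpos]
        rw [← hx, hs1, ht0]
        simp
    ext x
    simp only [mem_singleton_iff, mem_ofPred_eq, LinearMap.neg_apply, ContinuousLinearMap.coe_coe,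
      neg_le_neg_iff]
    constructor
    · rintro rfl
      exact ⟨subset_convexHull ℝ S hwS, fun y hy => (key y hy).1⟩
    · rintro ⟨hx, h4⟩
      exact (key x hx).2 (h4 w (subset_convexHull ℝ S hwS))

/-- an isomorphism of face lattices induces a bijection of the vertices that is compatible with
the faces -/
theorem iso_vertices {S T : Set (Euc d)} (hS : S.Finite) (hT : T.Finite)
    (h : CombEquiv (convexHull ℝ T) (convexHull ℝ S)) :
    ∃ φ : Euc d → Euc d, (∀ p ∈ vert (convexHull ℝ S), φ p ∈ vert (convexHull ℝ T)) ∧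
      InjOn φ (vert (convexHull ℝ S)) ∧
      (∀ u ∈ vert (convexHull ℝ T), ∃ p ∈ vert (convexHull ℝ S), φ p = u) ∧
      ∀ F, IsFace (convexHull ℝ S) F → ∃ G, IsFace (convexHull ℝ T) G ∧
        ∀ p ∈ vert (convexHull ℝ S), (φ p ∈ G ↔ p ∈ F) := by
  obtain ⟨e⟩ := h
  set P := convexHull ℝ S with hP
  set R := convexHull ℝ T with hR
  -- the empty face
  have hbotP : IsFace P (∅ : Set (Euc d)) := Or.inl rfl
  have hbotR : IsFace R (∅ : Set (Euc d)) := Or.inl rfl
  have hebot : (e ⟨∅, hbotR⟩ : Set (Euc d)) = ∅ := by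
    have h1 : e ⟨∅, hbotR⟩ ≤ ⟨∅, hbotP⟩ := by
      rw [← e.le_symm_apply]
      exact empty_subset _
    exact subset_empty_iff.1 h1
  have hsbot : (e.symm ⟨∅, hbotP⟩ : Set (Euc d)) = ∅ := by
    have h1 : e.symm ⟨∅, hbotP⟩ ≤ ⟨∅, hbotR⟩ := by
      rw [e.symm_apply_le]
      exact empty_subset _
    exact subset_empty_iff.1 h1
  -- nonempty faces go to nonempty faces
  have hne1 : ∀ F (hF : IsFace P F), F.Nonempty → (e.symm ⟨F, hF⟩ : Set (Euc d)).Nonempty := by
    intro F hF hne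
    rw [nonempty_iff_ne_empty]
    intro h0
    have : e.symm ⟨F, hF⟩ = ⟨∅, hbotR⟩ := Subtype.ext h0
    have h2 : (⟨F, hF⟩ : {F : Set (Euc d) // IsFace P F}) = e ⟨∅, hbotR⟩ := by
      rw [← this, e.apply_symm_apply]
    have h3 : F = ∅ := by
      have := congrArg Subtype.val h2
      rw [hebot] at this
      exact this
    exact hne.ne_empty h3
  have hne2 : ∀ F (hF : IsFace R F), F.Nonempty → (e ⟨F, hF⟩ : Set (Euc d)).Nonempty := by
    intro F hF hne
    rw [nonempty_iff_ne_empty]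
    intro h0
    have : e ⟨F, hF⟩ = ⟨∅, hbotP⟩ := Subtype.ext h0
    have h2 : (⟨F, hF⟩ : {F : Set (Euc d) // IsFace R F}) = e.symm ⟨∅, hbotP⟩ := by
      rw [← this, e.symm_apply_apply]
    have h3 : F = ∅ := by
      have := congrArg Subtype.val h2
      rw [hsbot] at this
      exact this
    exact hne.ne_empty h3
  have hvP : ∀ p ∈ vert P, IsFace P {p} := fun p hp => vert_isFace hS hp
  have hvR : ∀ p ∈ vert R, IsFace R {p} := fun p hp => vert_isFace hT hp
  -- singletons correspond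
  have hex : ∀ p (hp : p ∈ vert P), ∃ u ∈ vert R, (e.symm ⟨{p}, hvP p hp⟩ : Set (Euc d)) = {u} := by
    intro p hp
    obtain ⟨u, hu, huG⟩ := exists_vert_mem hT (e.symm ⟨{p}, hvP p hp⟩).2
      (hne1 _ (hvP p hp) (singleton_nonempty p))
    refine ⟨u, hu, ?_⟩
    have h1 : (⟨{u}, hvR u hu⟩ : {F : Set (Euc d) // IsFace R F}) ≤ e.symm ⟨{p}, hvP p hp⟩ :=
      singleton_subset_iff.2 huG
    have h2 : e ⟨{u}, hvR u hu⟩ ≤ ⟨{p}, hvP p hp⟩ := by rwa [← e.le_symm_apply]
    have h3 : (e ⟨{u}, hvR u hu⟩ : Set (Euc d)) ⊆ {p} := h2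
    have h4 := hne2 _ (hvR u hu) (singleton_nonempty u)
    have h5 : (e ⟨{u}, hvR u hu⟩ : Set (Euc d)) = {p} :=
      (Set.subset_singleton_iff_eq.1 h3).resolve_left h4.ne_empty
    have h6 : e ⟨{u}, hvR u hu⟩ = ⟨{p}, hvP p hp⟩ := Subtype.ext h5
    rw [← h6, e.symm_apply_apply]
  choose! φ0 hφ using hex
  refine ⟨φ0, fun p hp => (hφ p hp).1, ?_, ?_, ?_⟩
  · intro p hp q hq hpq
    have h1 := (hφ p hp).2
    have h2 := (hφ q hq).2
    rw [hpq, ← h2] at h1
    have h3 := e.symm.injective (Subtype.ext h1)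
    have h4 : ({p} : Set (Euc d)) = {q} := congrArg Subtype.val h3
    exact singleton_eq_singleton_iff.1 h4
  · intro u hu
    obtain ⟨p, hp, hpG⟩ := exists_vert_mem hS (e ⟨{u}, hvR u hu⟩).2
      (hne2 _ (hvR u hu) (singleton_nonempty u))
    refine ⟨p, hp, ?_⟩
    have h1 : (⟨{p}, hvP p hp⟩ : {F : Set (Euc d) // IsFace P F}) ≤ e ⟨{u}, hvR u hu⟩ :=
      singleton_subset_iff.2 hpG
    have h2 : e.symm ⟨{p}, hvP p hp⟩ ≤ ⟨{u}, hvR u hu⟩ := by rwa [e.symm_apply_le]
    have h3 : (e.symm ⟨{p}, hvP p hp⟩ : Set (Euc d)) ⊆ {u} := h2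
    rw [(hφ p hp).2] at h3
    exact mem_singleton_iff.1 (h3 (mem_singleton _))
  · intro F hF
    refine ⟨e.symm ⟨F, hF⟩, (e.symm ⟨F, hF⟩).2, fun p hp => ?_⟩
    have h1 := (hφ p hp).2
    have h2 : (⟨{p}, hvP p hp⟩ : {F : Set (Euc d) // IsFace P F}) ≤ ⟨F, hF⟩ ↔
        e.symm ⟨{p}, hvP p hp⟩ ≤ e.symm ⟨F, hF⟩ := (e.symm.le_iff_le).symm
    have h3 : (⟨{p}, hvP p hp⟩ : {F : Set (Euc d) // IsFace P F}) ≤ ⟨F, hF⟩ ↔ p ∈ F :=
      singleton_subset_iff
    have h4 : e.symm ⟨{p}, hvP p hp⟩ ≤ e.symm ⟨F, hF⟩ ↔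
        φ0 p ∈ (e.symm ⟨F, hF⟩ : Set (Euc d)) := by
      change (e.symm ⟨{p}, hvP p hp⟩ : Set (Euc d)) ⊆ _ ↔ _
      rw [h1]
      exact singleton_subset_iff
    rw [← h4, ← h2, h3]

end Pool.Agent.Lib.MP_1c334d_co
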