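import Pool.Agent.Lib.MP_1c334d_co.Det
import Pool.Agent.Lib.MP_1c334d_co.Check

/-!
# The sign system of fifteen vectors
-/

namespace Pool.Agent.Lib.MP_1c334d_co

open Matrix

theorem ins0 (v : ℕ → Fin 5 → ℝ) (a b c x q : ℕ) : D v a b c x q = - D v x a b c q := by
  rw [D_swap23, D_swap12, D_swap01]
  ring

theorem ins1 (v : ℕ → Fin 5 → ℝ) (a b c x q : ℕ) : D v a b c x q = D v a x b c q := by
  rw [D_swap23, D_swap12]
  ring

theorem ins2 (v : ℕ → Fin 5 → ℝ) (a b c x q : ℕ) : D v a b c x q = - D v a b x c q := by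
  rw [D_swap23]

theorem D_eq0 (v : ℕ → Fin 5 → ℝ) (a b c q : ℕ) : D v a b c a q = 0 :=
  Matrix.det_zero_of_row_eq (i := (0 : Fin 5)) (j := 3) (by decide) rfl

theorem D_eq1 (v : ℕ → Fin 5 → ℝ) (a b c q : ℕ) : D v a b c b q = 0 :=
  Matrix.det_zero_of_row_eq (i := (1 : Fin 5)) (j := 3) (by decide) rfl

theorem D_eq2 (v : ℕ → Fin 5 → ℝ) (a b c q : ℕ) : D v a b c c q = 0 :=
  Matrix.det_zero_of_row_eq (i := (2 : Fin 5)) (j := 3) (by decide) rfl

theorem exists_dot_aux (M : Matrix (Fin 5) (Fin 5) ℝ) :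
    ∃ g : Fin 5 → ℝ, ∀ x, g ⬝ᵥ x = (M.updateRow 3 x).det := by
  let L : (Fin 5 → ℝ) →ₗ[ℝ] ℝ :=
    { toFun := fun w => (M.updateRow 3 w).det
      map_add' := fun w w' => Matrix.det_updateRow_add M 3 w w'
      map_smul' := fun r w => Matrix.det_updateRow_smul M 3 r w }
  refine ⟨fun j => L (Pi.single j 1), fun x => ?_⟩
  have hx : (M.updateRow 3 x).det = L x := rfl
  rw [hx]
  have h := LinearMap.pi_apply_eq_sum_univ L x
  rw [h, dotProduct]
  refine Finset.sum_congr rfl fun i _ => ?_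
  have e : (Pi.single i 1 : Fin 5 → ℝ) = fun j => if i = j then 1 else 0 := by
    funext j
    by_cases hij : i = j
    · subst hij; simp
    · rw [Pi.single_apply, if_neg (fun h => hij h.symm), if_neg hij]
  rw [e, smul_eq_mul, mul_comm]

/-- the determinant is a linear function of its fourth row -/
theorem exists_dot (v : ℕ → Fin 5 → ℝ) (a b c q : ℕ) :
    ∃ g : Fin 5 → ℝ, ∀ x, g ⬝ᵥ v x = D v a b c x q := by
  obtain ⟨g, hg⟩ := exists_dot_aux (![v a, v b, v c, 0, v q] : Matrix (Fin 5) (Fin 5) ℝ)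
  refine ⟨g, fun x => ?_⟩
  rw [hg]
  have e : Matrix.updateRow (![v a, v b, v c, 0, v q] : Matrix (Fin 5) (Fin 5) ℝ) 3 (v x) =
      ![v a, v b, v c, v x, v q] := by
    funext k
    fin_cases k <;> rfl
  rw [e, D]

/-- the elements of the set with mask `m` -/
def els (m : ℕ) : List ℕ := (List.range 15).filter (fun i => Nat.testBit m i)

theorem els_five : ∀ e < 15, ∀ d < e, ∀ c < d, ∀ b < c, ∀ a < b,
    els (2 ^ a + 2 ^ b + 2 ^ c + 2 ^ d + 2 ^ e) = [a, b, c, d, e] := by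
  decide +kernel

/-- the value attached to a mask -/
noncomputable def Em (v : ℕ → Fin 5 → ℝ) (m : ℕ) : ℝ :=
  match els m with
  | [a, b, c, d, e] => D v a b c d e
  | _ => 1

theorem Em_five (v : ℕ → Fin 5 → ℝ) {a b c d e : ℕ} (h1 : a < b) (h2 : b < c) (h3 : c < d)
    (h4 : d < e) (h5 : e < 15) :
    Em v (2 ^ a + 2 ^ b + 2 ^ c + 2 ^ d + 2 ^ e) = D v a b c d e := by
  unfold Em
  rw [els_five e h5 d h4 c h3 b h2 a h1]

theorem valid_iff {b z : ℕ} (h : valid b z = true) :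
    dg z 0 < dg z 1 ∧ dg z 1 < dg z 2 ∧ dg z 2 < dg z 3 ∧ dg z 3 < dg z 4 ∧ dg z 4 < dg z 5 ∧
      dg z 5 < b := by
  unfold valid at h
  simp only [Bool.and_eq_true] at h
  exact ⟨lt_of_blt h.1.1.1.1.1, lt_of_blt h.1.1.1.1.2, lt_of_blt h.1.1.1.2, lt_of_blt h.1.1.2,
    lt_of_blt h.1.2, lt_of_blt h.2⟩

theorem gp012 (v : ℕ → Fin 5 → ℝ) (c0 c1 c2 c3 c4 c5 q : ℕ) :
    D v c1 c2 c3 c4 c5 * D v c0 c3 c4 c5 q - D v c0 c2 c3 c4 c5 * D v c1 c3 c4 c5 q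
      + D v c0 c1 c3 c4 c5 * D v c2 c3 c4 c5 q = 0 := by
  obtain ⟨g, hg⟩ := exists_dot v c3 c4 c5 q
  have h := cramer6 v g c0 c1 c2 c3 c4 c5
  simp only [hg] at h
  rw [D_eq0 v c3 c4 c5 q, D_eq1 v c3 c4 c5 q, D_eq2 v c3 c4 c5 q] at h
  rw [ins0 v c3 c4 c5 c0 q,
    ins0 v c3 c4 c5 c1 q,
    ins0 v c3 c4 c5 c2 q] at h
  linear_combination (-1 : ℝ) * h

theorem gp013 (v : ℕ → Fin 5 → ℝ) (c0 c1 c2 c3 c4 c5 q : ℕ) :
    D v c1 c2 c3 c4 c5 * D v c0 c2 c4 c5 q - D v c0 c2 c3 c4 c5 * D v c1 c2 c4 c5 q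
      + D v c0 c1 c2 c4 c5 * D v c2 c3 c4 c5 q = 0 := by
  obtain ⟨g, hg⟩ := exists_dot v c2 c4 c5 q
  have h := cramer6 v g c0 c1 c2 c3 c4 c5
  simp only [hg] at h
  rw [D_eq0 v c2 c4 c5 q, D_eq1 v c2 c4 c5 q, D_eq2 v c2 c4 c5 q] at h
  rw [ins0 v c2 c4 c5 c0 q,
    ins0 v c2 c4 c5 c1 q,
    ins1 v c2 c4 c5 c3 q] at h
  linear_combination (-1 : ℝ) * h

theorem gp014 (v : ℕ → Fin 5 → ℝ) (c0 c1 c2 c3 c4 c5 q : ℕ) :
    D v c1 c2 c3 c4 c5 * D v c0 c2 c3 c5 q - D v c0 c2 c3 c4 c5 * D v c1 c2 c3 c5 q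
      + D v c0 c1 c2 c3 c5 * D v c2 c3 c4 c5 q = 0 := by
  obtain ⟨g, hg⟩ := exists_dot v c2 c3 c5 q
  have h := cramer6 v g c0 c1 c2 c3 c4 c5
  simp only [hg] at h
  rw [D_eq0 v c2 c3 c5 q, D_eq1 v c2 c3 c5 q, D_eq2 v c2 c3 c5 q] at h
  rw [ins0 v c2 c3 c5 c0 q,
    ins0 v c2 c3 c5 c1 q,
    ins2 v c2 c3 c5 c4 q] at h
  linear_combination (-1 : ℝ) * h

theorem gp015 (v : ℕ → Fin 5 → ℝ) (c0 c1 c2 c3 c4 c5 q : ℕ) :
    D v c1 c2 c3 c4 c5 * D v c0 c2 c3 c4 q - D v c0 c2 c3 c4 c5 * D v c1 c2 c3 c4 q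
      + D v c0 c1 c2 c3 c4 * D v c2 c3 c4 c5 q = 0 := by
  obtain ⟨g, hg⟩ := exists_dot v c2 c3 c4 q
  have h := cramer6 v g c0 c1 c2 c3 c4 c5
  simp only [hg] at h
  rw [D_eq0 v c2 c3 c4 q, D_eq1 v c2 c3 c4 q, D_eq2 v c2 c3 c4 q] at h
  rw [ins0 v c2 c3 c4 c0 q,
    ins0 v c2 c3 c4 c1 q] at h
  linear_combination (-1 : ℝ) * h

theorem gp023 (v : ℕ → Fin 5 → ℝ) (c0 c1 c2 c3 c4 c5 q : ℕ) :
    D v c1 c2 c3 c4 c5 * D v c0 c1 c4 c5 q - D v c0 c1 c3 c4 c5 * D v c1 c2 c4 c5 q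
      + D v c0 c1 c2 c4 c5 * D v c1 c3 c4 c5 q = 0 := by
  obtain ⟨g, hg⟩ := exists_dot v c1 c4 c5 q
  have h := cramer6 v g c0 c1 c2 c3 c4 c5
  simp only [hg] at h
  rw [D_eq0 v c1 c4 c5 q, D_eq1 v c1 c4 c5 q, D_eq2 v c1 c4 c5 q] at h
  rw [ins0 v c1 c4 c5 c0 q,
    ins1 v c1 c4 c5 c2 q,
    ins1 v c1 c4 c5 c3 q] at h
  linear_combination (-1 : ℝ) * h

theorem gp024 (v : ℕ → Fin 5 → ℝ) (c0 c1 c2 c3 c4 c5 q : ℕ) :
    D v c1 c2 c3 c4 c5 * D v c0 c1 c3 c5 q - D v c0 c1 c3 c4 c5 * D v c1 c2 c3 c5 q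
      + D v c0 c1 c2 c3 c5 * D v c1 c3 c4 c5 q = 0 := by
  obtain ⟨g, hg⟩ := exists_dot v c1 c3 c5 q
  have h := cramer6 v g c0 c1 c2 c3 c4 c5
  simp only [hg] at h
  rw [D_eq0 v c1 c3 c5 q, D_eq1 v c1 c3 c5 q, D_eq2 v c1 c3 c5 q] at h
  rw [ins0 v c1 c3 c5 c0 q,
    ins1 v c1 c3 c5 c2 q,
    ins2 v c1 c3 c5 c4 q] at h
  linear_combination (-1 : ℝ) * h

theorem gp025 (v : ℕ → Fin 5 → ℝ) (c0 c1 c2 c3 c4 c5 q : ℕ) :
    D v c1 c2 c3 c4 c5 * D v c0 c1 c3 c4 q - D v c0 c1 c3 c4 c5 * D v c1 c2 c3 c4 q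
      + D v c0 c1 c2 c3 c4 * D v c1 c3 c4 c5 q = 0 := by
  obtain ⟨g, hg⟩ := exists_dot v c1 c3 c4 q
  have h := cramer6 v g c0 c1 c2 c3 c4 c5
  simp only [hg] at h
  rw [D_eq0 v c1 c3 c4 q, D_eq1 v c1 c3 c4 q, D_eq2 v c1 c3 c4 q] at h
  rw [ins0 v c1 c3 c4 c0 q,
    ins1 v c1 c3 c4 c2 q] at h
  linear_combination (-1 : ℝ) * h

theorem gp034 (v : ℕ → Fin 5 → ℝ) (c0 c1 c2 c3 c4 c5 q : ℕ) :
    D v c1 c2 c3 c4 c5 * D v c0 c1 c2 c5 q - D v c0 c1 c2 c4 c5 * D v c1 c2 c3 c5 q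
      + D v c0 c1 c2 c3 c5 * D v c1 c2 c4 c5 q = 0 := by
  obtain ⟨g, hg⟩ := exists_dot v c1 c2 c5 q
  have h := cramer6 v g c0 c1 c2 c3 c4 c5
  simp only [hg] at h
  rw [D_eq0 v c1 c2 c5 q, D_eq1 v c1 c2 c5 q, D_eq2 v c1 c2 c5 q] at h
  rw [ins0 v c1 c2 c5 c0 q,
    ins2 v c1 c2 c5 c3 q,
    ins2 v c1 c2 c5 c4 q] at h
  linear_combination (-1 : ℝ) * h

theorem gp035 (v : ℕ → Fin 5 → ℝ) (c0 c1 c2 c3 c4 c5 q : ℕ) :
    D v c1 c2 c3 c4 c5 * D v c0 c1 c2 c4 q - D v c0 c1 c2 c4 c5 * D v c1 c2 c3 c4 q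
      + D v c0 c1 c2 c3 c4 * D v c1 c2 c4 c5 q = 0 := by
  obtain ⟨g, hg⟩ := exists_dot v c1 c2 c4 q
  have h := cramer6 v g c0 c1 c2 c3 c4 c5
  simp only [hg] at h
  rw [D_eq0 v c1 c2 c4 q, D_eq1 v c1 c2 c4 q, D_eq2 v c1 c2 c4 q] at h
  rw [ins0 v c1 c2 c4 c0 q,
    ins2 v c1 c2 c4 c3 q] at h
  linear_combination (-1 : ℝ) * h

theorem gp045 (v : ℕ → Fin 5 → ℝ) (c0 c1 c2 c3 c4 c5 q : ℕ) :
    D v c1 c2 c3 c4 c5 * D v c0 c1 c2 c3 q - D v c0 c1 c2 c3 c5 * D v c1 c2 c3 c4 q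
      + D v c0 c1 c2 c3 c4 * D v c1 c2 c3 c5 q = 0 := by
  obtain ⟨g, hg⟩ := exists_dot v c1 c2 c3 q
  have h := cramer6 v g c0 c1 c2 c3 c4 c5
  simp only [hg] at h
  rw [D_eq0 v c1 c2 c3 q, D_eq1 v c1 c2 c3 q, D_eq2 v c1 c2 c3 q] at h
  rw [ins0 v c1 c2 c3 c0 q] at h
  linear_combination (-1 : ℝ) * h

theorem gp123 (v : ℕ → Fin 5 → ℝ) (c0 c1 c2 c3 c4 c5 q : ℕ) :
    D v c0 c2 c3 c4 c5 * D v c0 c1 c4 c5 q - D v c0 c1 c3 c4 c5 * D v c0 c2 c4 c5 q
      + D v c0 c1 c2 c4 c5 * D v c0 c3 c4 c5 q = 0 := by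
  obtain ⟨g, hg⟩ := exists_dot v c0 c4 c5 q
  have h := cramer6 v g c0 c1 c2 c3 c4 c5
  simp only [hg] at h
  rw [D_eq0 v c0 c4 c5 q, D_eq1 v c0 c4 c5 q, D_eq2 v c0 c4 c5 q] at h
  rw [ins1 v c0 c4 c5 c1 q,
    ins1 v c0 c4 c5 c2 q,
    ins1 v c0 c4 c5 c3 q] at h
  linear_combination (-1 : ℝ) * h

theorem gp124 (v : ℕ → Fin 5 → ℝ) (c0 c1 c2 c3 c4 c5 q : ℕ) :
    D v c0 c2 c3 c4 c5 * D v c0 c1 c3 c5 q - D v c0 c1 c3 c4 c5 * D v c0 c2 c3 c5 q
      + D v c0 c1 c2 c3 c5 * D v c0 c3 c4 c5 q = 0 := by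
  obtain ⟨g, hg⟩ := exists_dot v c0 c3 c5 q
  have h := cramer6 v g c0 c1 c2 c3 c4 c5
  simp only [hg] at h
  rw [D_eq0 v c0 c3 c5 q, D_eq1 v c0 c3 c5 q, D_eq2 v c0 c3 c5 q] at h
  rw [ins1 v c0 c3 c5 c1 q,
    ins1 v c0 c3 c5 c2 q,
    ins2 v c0 c3 c5 c4 q] at h
  linear_combination (-1 : ℝ) * h

theorem gp125 (v : ℕ → Fin 5 → ℝ) (c0 c1 c2 c3 c4 c5 q : ℕ) :
    D v c0 c2 c3 c4 c5 * D v c0 c1 c3 c4 q - D v c0 c1 c3 c4 c5 * D v c0 c2 c3 c4 q
      + D v c0 c1 c2 c3 c4 * D v c0 c3 c4 c5 q = 0 := by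
  obtain ⟨g, hg⟩ := exists_dot v c0 c3 c4 q
  have h := cramer6 v g c0 c1 c2 c3 c4 c5
  simp only [hg] at h
  rw [D_eq0 v c0 c3 c4 q, D_eq1 v c0 c3 c4 q, D_eq2 v c0 c3 c4 q] at h
  rw [ins1 v c0 c3 c4 c1 q,
    ins1 v c0 c3 c4 c2 q] at h
  linear_combination (-1 : ℝ) * h

theorem gp134 (v : ℕ → Fin 5 → ℝ) (c0 c1 c2 c3 c4 c5 q : ℕ) :
    D v c0 c2 c3 c4 c5 * D v c0 c1 c2 c5 q - D v c0 c1 c2 c4 c5 * D v c0 c2 c3 c5 q
      + D v c0 c1 c2 c3 c5 * D v c0 c2 c4 c5 q = 0 := by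
  obtain ⟨g, hg⟩ := exists_dot v c0 c2 c5 q
  have h := cramer6 v g c0 c1 c2 c3 c4 c5
  simp only [hg] at h
  rw [D_eq0 v c0 c2 c5 q, D_eq1 v c0 c2 c5 q, D_eq2 v c0 c2 c5 q] at h
  rw [ins1 v c0 c2 c5 c1 q,
    ins2 v c0 c2 c5 c3 q,
    ins2 v c0 c2 c5 c4 q] at h
  linear_combination (-1 : ℝ) * h

theorem gp135 (v : ℕ → Fin 5 → ℝ) (c0 c1 c2 c3 c4 c5 q : ℕ) :
    D v c0 c2 c3 c4 c5 * D v c0 c1 c2 c4 q - D v c0 c1 c2 c4 c5 * D v c0 c2 c3 c4 q
      + D v c0 c1 c2 c3 c4 * D v c0 c2 c4 c5 q = 0 := by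
  obtain ⟨g, hg⟩ := exists_dot v c0 c2 c4 q
  have h := cramer6 v g c0 c1 c2 c3 c4 c5
  simp only [hg] at h
  rw [D_eq0 v c0 c2 c4 q, D_eq1 v c0 c2 c4 q, D_eq2 v c0 c2 c4 q] at h
  rw [ins1 v c0 c2 c4 c1 q,
    ins2 v c0 c2 c4 c3 q] at h
  linear_combination (-1 : ℝ) * h

theorem gp145 (v : ℕ → Fin 5 → ℝ) (c0 c1 c2 c3 c4 c5 q : ℕ) :
    D v c0 c2 c3 c4 c5 * D v c0 c1 c2 c3 q - D v c0 c1 c2 c3 c5 * D v c0 c2 c3 c4 q
      + D v c0 c1 c2 c3 c4 * D v c0 c2 c3 c5 q = 0 := by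
  obtain ⟨g, hg⟩ := exists_dot v c0 c2 c3 q
  have h := cramer6 v g c0 c1 c2 c3 c4 c5
  simp only [hg] at h
  rw [D_eq0 v c0 c2 c3 q, D_eq1 v c0 c2 c3 q, D_eq2 v c0 c2 c3 q] at h
  rw [ins1 v c0 c2 c3 c1 q] at h
  linear_combination (-1 : ℝ) * h

theorem gp234 (v : ℕ → Fin 5 → ℝ) (c0 c1 c2 c3 c4 c5 q : ℕ) :
    D v c0 c1 c3 c4 c5 * D v c0 c1 c2 c5 q - D v c0 c1 c2 c4 c5 * D v c0 c1 c3 c5 q
      + D v c0 c1 c2 c3 c5 * D v c0 c1 c4 c5 q = 0 := by
  obtain ⟨g, hg⟩ := exists_dot v c0 c1 c5 q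
  have h := cramer6 v g c0 c1 c2 c3 c4 c5
  simp only [hg] at h
  rw [D_eq0 v c0 c1 c5 q, D_eq1 v c0 c1 c5 q, D_eq2 v c0 c1 c5 q] at h
  rw [ins2 v c0 c1 c5 c2 q,
    ins2 v c0 c1 c5 c3 q,
    ins2 v c0 c1 c5 c4 q] at h
  linear_combination (-1 : ℝ) * h

theorem gp235 (v : ℕ → Fin 5 → ℝ) (c0 c1 c2 c3 c4 c5 q : ℕ) :
    D v c0 c1 c3 c4 c5 * D v c0 c1 c2 c4 q - D v c0 c1 c2 c4 c5 * D v c0 c1 c3 c4 q
      + D v c0 c1 c2 c3 c4 * D v c0 c1 c4 c5 q = 0 := by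
  obtain ⟨g, hg⟩ := exists_dot v c0 c1 c4 q
  have h := cramer6 v g c0 c1 c2 c3 c4 c5
  simp only [hg] at h
  rw [D_eq0 v c0 c1 c4 q, D_eq1 v c0 c1 c4 q, D_eq2 v c0 c1 c4 q] at h
  rw [ins2 v c0 c1 c4 c2 q,
    ins2 v c0 c1 c4 c3 q] at h
  linear_combination (-1 : ℝ) * h

theorem gp245 (v : ℕ → Fin 5 → ℝ) (c0 c1 c2 c3 c4 c5 q : ℕ) :
    D v c0 c1 c3 c4 c5 * D v c0 c1 c2 c3 q - D v c0 c1 c2 c3 c5 * D v c0 c1 c3 c4 q
      + D v c0 c1 c2 c3 c4 * D v c0 c1 c3 c5 q = 0 := by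
  obtain ⟨g, hg⟩ := exists_dot v c0 c1 c3 q
  have h := cramer6 v g c0 c1 c2 c3 c4 c5
  simp only [hg] at h
  rw [D_eq0 v c0 c1 c3 q, D_eq1 v c0 c1 c3 q, D_eq2 v c0 c1 c3 q] at h
  rw [ins2 v c0 c1 c3 c2 q] at h
  linear_combination (-1 : ℝ) * h

theorem gp345 (v : ℕ → Fin 5 → ℝ) (c0 c1 c2 c3 c4 c5 q : ℕ) :
    D v c0 c1 c2 c4 c5 * D v c0 c1 c2 c3 q - D v c0 c1 c2 c3 c5 * D v c0 c1 c2 c4 q
      + D v c0 c1 c2 c3 c4 * D v c0 c1 c2 c5 q = 0 := by
  obtain ⟨g, hg⟩ := exists_dot v c0 c1 c2 q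
  have h := cramer6 v g c0 c1 c2 c3 c4 c5
  simp only [hg] at h
  rw [D_eq0 v c0 c1 c2 q, D_eq1 v c0 c1 c2 q, D_eq2 v c0 c1 c2 q] at h
  linear_combination (-1 : ℝ) * h

theorem Em_mi0 (v : ℕ → Fin 5 → ℝ) {z : ℕ} (h : valid 15 z = true) :
    Em v (mi z 0) = D v (dg z 1) (dg z 2) (dg z 3) (dg z 4) (dg z 5) := by
  obtain ⟨h0, h1, h2, h3, h4, h5⟩ := valid_iff h
  have e : mi z 0 = 2 ^ dg z 1 + 2 ^ dg z 2 + 2 ^ dg z 3 + 2 ^ dg z 4 + 2 ^ dg z 5 := by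
    unfold mi Mk
    generalize 2 ^ dg z 0 = p0
    generalize 2 ^ dg z 1 = p1
    generalize 2 ^ dg z 2 = p2
    generalize 2 ^ dg z 3 = p3
    generalize 2 ^ dg z 4 = p4
    generalize 2 ^ dg z 5 = p5
    omega
  rw [e, Em_five v (by omega) (by omega) (by omega) (by omega) (by omega)]

theorem Em_mi1 (v : ℕ → Fin 5 → ℝ) {z : ℕ} (h : valid 15 z = true) :
    Em v (mi z 1) = D v (dg z 0) (dg z 2) (dg z 3) (dg z 4) (dg z 5) := by
  obtain ⟨h0, h1, h2, h3, h4, h5⟩ := valid_iff h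
  have e : mi z 1 = 2 ^ dg z 0 + 2 ^ dg z 2 + 2 ^ dg z 3 + 2 ^ dg z 4 + 2 ^ dg z 5 := by
    unfold mi Mk
    generalize 2 ^ dg z 0 = p0
    generalize 2 ^ dg z 1 = p1
    generalize 2 ^ dg z 2 = p2
    generalize 2 ^ dg z 3 = p3
    generalize 2 ^ dg z 4 = p4
    generalize 2 ^ dg z 5 = p5
    omega
  rw [e, Em_five v (by omega) (by omega) (by omega) (by omega) (by omega)]

theorem Em_mi2 (v : ℕ → Fin 5 → ℝ) {z : ℕ} (h : valid 15 z = true) :
    Em v (mi z 2) = D v (dg z 0) (dg z 1) (dg z 3) (dg z 4) (dg z 5) := by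
  obtain ⟨h0, h1, h2, h3, h4, h5⟩ := valid_iff h
  have e : mi z 2 = 2 ^ dg z 0 + 2 ^ dg z 1 + 2 ^ dg z 3 + 2 ^ dg z 4 + 2 ^ dg z 5 := by
    unfold mi Mk
    generalize 2 ^ dg z 0 = p0
    generalize 2 ^ dg z 1 = p1
    generalize 2 ^ dg z 2 = p2
    generalize 2 ^ dg z 3 = p3
    generalize 2 ^ dg z 4 = p4
    generalize 2 ^ dg z 5 = p5
    omega
  rw [e, Em_five v (by omega) (by omega) (by omega) (by omega) (by omega)]

theorem Em_mi3 (v : ℕ → Fin 5 → ℝ) {z : ℕ} (h : valid 15 z = true) :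
    Em v (mi z 3) = D v (dg z 0) (dg z 1) (dg z 2) (dg z 4) (dg z 5) := by
  obtain ⟨h0, h1, h2, h3, h4, h5⟩ := valid_iff h
  have e : mi z 3 = 2 ^ dg z 0 + 2 ^ dg z 1 + 2 ^ dg z 2 + 2 ^ dg z 4 + 2 ^ dg z 5 := by
    unfold mi Mk
    generalize 2 ^ dg z 0 = p0
    generalize 2 ^ dg z 1 = p1
    generalize 2 ^ dg z 2 = p2
    generalize 2 ^ dg z 3 = p3
    generalize 2 ^ dg z 4 = p4
    generalize 2 ^ dg z 5 = p5
    omega
  rw [e, Em_five v (by omega) (by omega) (by omega) (by omega) (by omega)]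

theorem Em_mi4 (v : ℕ → Fin 5 → ℝ) {z : ℕ} (h : valid 15 z = true) :
    Em v (mi z 4) = D v (dg z 0) (dg z 1) (dg z 2) (dg z 3) (dg z 5) := by
  obtain ⟨h0, h1, h2, h3, h4, h5⟩ := valid_iff h
  have e : mi z 4 = 2 ^ dg z 0 + 2 ^ dg z 1 + 2 ^ dg z 2 + 2 ^ dg z 3 + 2 ^ dg z 5 := by
    unfold mi Mk
    generalize 2 ^ dg z 0 = p0
    generalize 2 ^ dg z 1 = p1
    generalize 2 ^ dg z 2 = p2
    generalize 2 ^ dg z 3 = p3
    generalize 2 ^ dg z 4 = p4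
    generalize 2 ^ dg z 5 = p5
    omega
  rw [e, Em_five v (by omega) (by omega) (by omega) (by omega) (by omega)]

theorem Em_mi5 (v : ℕ → Fin 5 → ℝ) {z : ℕ} (h : valid 15 z = true) :
    Em v (mi z 5) = D v (dg z 0) (dg z 1) (dg z 2) (dg z 3) (dg z 4) := by
  obtain ⟨h0, h1, h2, h3, h4, h5⟩ := valid_iff h
  have e : mi z 5 = 2 ^ dg z 0 + 2 ^ dg z 1 + 2 ^ dg z 2 + 2 ^ dg z 3 + 2 ^ dg z 4 := by
    unfold mi Mk
    generalize 2 ^ dg z 0 = p0
    generalize 2 ^ dg z 1 = p1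
    generalize 2 ^ dg z 2 = p2
    generalize 2 ^ dg z 3 = p3
    generalize 2 ^ dg z 4 = p4
    generalize 2 ^ dg z 5 = p5
    omega
  rw [e, Em_five v (by omega) (by omega) (by omega) (by omega) (by omega)]

theorem valid_mono {z : ℕ} (h : valid 14 z = true) : valid 15 z = true := by
  obtain ⟨h0, h1, h2, h3, h4, h5⟩ := valid_iff h
  unfold valid
  have e : ∀ {a b : ℕ}, a < b → Nat.blt a b = true := fun h => Nat.ble_eq_true_of_le h
  simp only [Bool.and_eq_true]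
  exact ⟨⟨⟨⟨⟨e h0, e h1⟩, e h2⟩, e h3⟩, e h4⟩, e (by omega)⟩

/-- the linear relation between six vectors -/
theorem lin6 (v : ℕ → Fin 5 → ℝ) {z : ℕ} (h : valid 15 z = true) (g : Fin 5 → ℝ) :
    ∑ r ∈ Finset.range 6, (g ⬝ᵥ v (dg z r)) * lam (Em v) z r = 0 := by
  have key := cramer6 v g (dg z 0) (dg z 1) (dg z 2) (dg z 3) (dg z 4) (dg z 5)
  simp only [Finset.sum_range_succ, Finset.sum_range_zero, lam, Em_mi0 v h, Em_mi1 v h,
    Em_mi2 v h, Em_mi3 v h, Em_mi4 v h, Em_mi5 v h]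
  norm_num
  linarith

theorem axG_Em (v : ℕ → Fin 5 → ℝ) {z : ℕ} (h : valid 14 z = true) (i j k : ℕ) (hij : i < j)
    (hjk : j < k) (hk : k < 6) :
    Em v (mi z i) * Em v (ni z i j k i) - Em v (mi z j) * Em v (ni z i j k j)
      + Em v (mi z k) * Em v (ni z i j k k) = 0 := by
  have hv := valid_mono h
  obtain ⟨h0, h1, h2, h3, h4, h5⟩ := valid_iff h
  interval_cases k <;> interval_cases j <;> interval_cases i
  · have key := gp012 v (dg z 0) (dg z 1) (dg z 2) (dg z 3) (dg z 4) (dg z 5) 14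
    have e0 : ni z 0 1 2 0 = 2 ^ dg z 0 + 2 ^ dg z 3 + 2 ^ dg z 4 + 2 ^ dg z 5 + 2 ^ 14 := by
      unfold ni Mk
      generalize 2 ^ dg z 0 = p0
      generalize 2 ^ dg z 1 = p1
      generalize 2 ^ dg z 2 = p2
      generalize 2 ^ dg z 3 = p3
      generalize 2 ^ dg z 4 = p4
      generalize 2 ^ dg z 5 = p5
      clear * -
      omega
    have e1 : ni z 0 1 2 1 = 2 ^ dg z 1 + 2 ^ dg z 3 + 2 ^ dg z 4 + 2 ^ dg z 5 + 2 ^ 14 := by
      unfold ni Mk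
      generalize 2 ^ dg z 0 = p0
      generalize 2 ^ dg z 1 = p1
      generalize 2 ^ dg z 2 = p2
      generalize 2 ^ dg z 3 = p3
      generalize 2 ^ dg z 4 = p4
      generalize 2 ^ dg z 5 = p5
      clear * -
      omega
    have e2 : ni z 0 1 2 2 = 2 ^ dg z 2 + 2 ^ dg z 3 + 2 ^ dg z 4 + 2 ^ dg z 5 + 2 ^ 14 := by
      unfold ni Mk
      generalize 2 ^ dg z 0 = p0
      generalize 2 ^ dg z 1 = p1
      generalize 2 ^ dg z 2 = p2
      generalize 2 ^ dg z 3 = p3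
      generalize 2 ^ dg z 4 = p4
      generalize 2 ^ dg z 5 = p5
      clear * -
      omega
    rw [e0, e1, e2, Em_mi0 v hv, Em_mi1 v hv, Em_mi2 v hv,
      Em_five v (by omega) (by omega) (by omega) (by omega) (by omega),
      Em_five v (by omega) (by omega) (by omega) (by omega) (by omega),
      Em_five v (by omega) (by omega) (by omega) (by omega) (by omega)]
    exact key
  · have key := gp013 v (dg z 0) (dg z 1) (dg z 2) (dg z 3) (dg z 4) (dg z 5) 14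
    have e0 : ni z 0 1 3 0 = 2 ^ dg z 0 + 2 ^ dg z 2 + 2 ^ dg z 4 + 2 ^ dg z 5 + 2 ^ 14 := by
      unfold ni Mk
      generalize 2 ^ dg z 0 = p0
      generalize 2 ^ dg z 1 = p1
      generalize 2 ^ dg z 2 = p2
      generalize 2 ^ dg z 3 = p3
      generalize 2 ^ dg z 4 = p4
      generalize 2 ^ dg z 5 = p5
      clear * -
      omega
    have e1 : ni z 0 1 3 1 = 2 ^ dg z 1 + 2 ^ dg z 2 + 2 ^ dg z 4 + 2 ^ dg z 5 + 2 ^ 14 := by
      unfold ni Mk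
      generalize 2 ^ dg z 0 = p0
      generalize 2 ^ dg z 1 = p1
      generalize 2 ^ dg z 2 = p2
      generalize 2 ^ dg z 3 = p3
      generalize 2 ^ dg z 4 = p4
      generalize 2 ^ dg z 5 = p5
      clear * -
      omega
    have e3 : ni z 0 1 3 3 = 2 ^ dg z 2 + 2 ^ dg z 3 + 2 ^ dg z 4 + 2 ^ dg z 5 + 2 ^ 14 := by
      unfold ni Mk
      generalize 2 ^ dg z 0 = p0
      generalize 2 ^ dg z 1 = p1
      generalize 2 ^ dg z 2 = p2
      generalize 2 ^ dg z 3 = p3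
      generalize 2 ^ dg z 4 = p4
      generalize 2 ^ dg z 5 = p5
      clear * -
      omega
    rw [e0, e1, e3, Em_mi0 v hv, Em_mi1 v hv, Em_mi3 v hv,
      Em_five v (by omega) (by omega) (by omega) (by omega) (by omega),
      Em_five v (by omega) (by omega) (by omega) (by omega) (by omega),
      Em_five v (by omega) (by omega) (by omega) (by omega) (by omega)]
    exact key
  · have key := gp023 v (dg z 0) (dg z 1) (dg z 2) (dg z 3) (dg z 4) (dg z 5) 14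
    have e0 : ni z 0 2 3 0 = 2 ^ dg z 0 + 2 ^ dg z 1 + 2 ^ dg z 4 + 2 ^ dg z 5 + 2 ^ 14 := by
      unfold ni Mk
      generalize 2 ^ dg z 0 = p0
      generalize 2 ^ dg z 1 = p1
      generalize 2 ^ dg z 2 = p2
      generalize 2 ^ dg z 3 = p3
      generalize 2 ^ dg z 4 = p4
      generalize 2 ^ dg z 5 = p5
      clear * -
      omega
    have e2 : ni z 0 2 3 2 = 2 ^ dg z 1 + 2 ^ dg z 2 + 2 ^ dg z 4 + 2 ^ dg z 5 + 2 ^ 14 := by
      unfold ni Mk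
      generalize 2 ^ dg z 0 = p0
      generalize 2 ^ dg z 1 = p1
      generalize 2 ^ dg z 2 = p2
      generalize 2 ^ dg z 3 = p3
      generalize 2 ^ dg z 4 = p4
      generalize 2 ^ dg z 5 = p5
      clear * -
      omega
    have e3 : ni z 0 2 3 3 = 2 ^ dg z 1 + 2 ^ dg z 3 + 2 ^ dg z 4 + 2 ^ dg z 5 + 2 ^ 14 := by
      unfold ni Mk
      generalize 2 ^ dg z 0 = p0
      generalize 2 ^ dg z 1 = p1
      generalize 2 ^ dg z 2 = p2
      generalize 2 ^ dg z 3 = p3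
      generalize 2 ^ dg z 4 = p4
      generalize 2 ^ dg z 5 = p5
      clear * -
      omega
    rw [e0, e2, e3, Em_mi0 v hv, Em_mi2 v hv, Em_mi3 v hv,
      Em_five v (by omega) (by omega) (by omega) (by omega) (by omega),
      Em_five v (by omega) (by omega) (by omega) (by omega) (by omega),
      Em_five v (by omega) (by omega) (by omega) (by omega) (by omega)]
    exact key
  · have key := gp123 v (dg z 0) (dg z 1) (dg z 2) (dg z 3) (dg z 4) (dg z 5) 14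
    have e1 : ni z 1 2 3 1 = 2 ^ dg z 0 + 2 ^ dg z 1 + 2 ^ dg z 4 + 2 ^ dg z 5 + 2 ^ 14 := by
      unfold ni Mk
      generalize 2 ^ dg z 0 = p0
      generalize 2 ^ dg z 1 = p1
      generalize 2 ^ dg z 2 = p2
      generalize 2 ^ dg z 3 = p3
      generalize 2 ^ dg z 4 = p4
      generalize 2 ^ dg z 5 = p5
      clear * -
      omega
    have e2 : ni z 1 2 3 2 = 2 ^ dg z 0 + 2 ^ dg z 2 + 2 ^ dg z 4 + 2 ^ dg z 5 + 2 ^ 14 := by
      unfold ni Mk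
      generalize 2 ^ dg z 0 = p0
      generalize 2 ^ dg z 1 = p1
      generalize 2 ^ dg z 2 = p2
      generalize 2 ^ dg z 3 = p3
      generalize 2 ^ dg z 4 = p4
      generalize 2 ^ dg z 5 = p5
      clear * -
      omega
    have e3 : ni z 1 2 3 3 = 2 ^ dg z 0 + 2 ^ dg z 3 + 2 ^ dg z 4 + 2 ^ dg z 5 + 2 ^ 14 := by
      unfold ni Mk
      generalize 2 ^ dg z 0 = p0
      generalize 2 ^ dg z 1 = p1
      generalize 2 ^ dg z 2 = p2
      generalize 2 ^ dg z 3 = p3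
      generalize 2 ^ dg z 4 = p4
      generalize 2 ^ dg z 5 = p5
      clear * -
      omega
    rw [e1, e2, e3, Em_mi1 v hv, Em_mi2 v hv, Em_mi3 v hv,
      Em_five v (by omega) (by omega) (by omega) (by omega) (by omega),
      Em_five v (by omega) (by omega) (by omega) (by omega) (by omega),
      Em_five v (by omega) (by omega) (by omega) (by omega) (by omega)]
    exact key
  · have key := gp014 v (dg z 0) (dg z 1) (dg z 2) (dg z 3) (dg z 4) (dg z 5) 14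
    have e0 : ni z 0 1 4 0 = 2 ^ dg z 0 + 2 ^ dg z 2 + 2 ^ dg z 3 + 2 ^ dg z 5 + 2 ^ 14 := by
      unfold ni Mk
      generalize 2 ^ dg z 0 = p0
      generalize 2 ^ dg z 1 = p1
      generalize 2 ^ dg z 2 = p2
      generalize 2 ^ dg z 3 = p3
      generalize 2 ^ dg z 4 = p4
      generalize 2 ^ dg z 5 = p5
      clear * -
      omega
    have e1 : ni z 0 1 4 1 = 2 ^ dg z 1 + 2 ^ dg z 2 + 2 ^ dg z 3 + 2 ^ dg z 5 + 2 ^ 14 := by
      unfold ni Mk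
      generalize 2 ^ dg z 0 = p0
      generalize 2 ^ dg z 1 = p1
      generalize 2 ^ dg z 2 = p2
      generalize 2 ^ dg z 3 = p3
      generalize 2 ^ dg z 4 = p4
      generalize 2 ^ dg z 5 = p5
      clear * -
      omega
    have e4 : ni z 0 1 4 4 = 2 ^ dg z 2 + 2 ^ dg z 3 + 2 ^ dg z 4 + 2 ^ dg z 5 + 2 ^ 14 := by
      unfold ni Mk
      generalize 2 ^ dg z 0 = p0
      generalize 2 ^ dg z 1 = p1
      generalize 2 ^ dg z 2 = p2
      generalize 2 ^ dg z 3 = p3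
      generalize 2 ^ dg z 4 = p4
      generalize 2 ^ dg z 5 = p5
      clear * -
      omega
    rw [e0, e1, e4, Em_mi0 v hv, Em_mi1 v hv, Em_mi4 v hv,
      Em_five v (by omega) (by omega) (by omega) (by omega) (by omega),
      Em_five v (by omega) (by omega) (by omega) (by omega) (by omega),
      Em_five v (by omega) (by omega) (by omega) (by omega) (by omega)]
    exact key
  · have key := gp024 v (dg z 0) (dg z 1) (dg z 2) (dg z 3) (dg z 4) (dg z 5) 14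
    have e0 : ni z 0 2 4 0 = 2 ^ dg z 0 + 2 ^ dg z 1 + 2 ^ dg z 3 + 2 ^ dg z 5 + 2 ^ 14 := by
      unfold ni Mk
      generalize 2 ^ dg z 0 = p0
      generalize 2 ^ dg z 1 = p1
      generalize 2 ^ dg z 2 = p2
      generalize 2 ^ dg z 3 = p3
      generalize 2 ^ dg z 4 = p4
      generalize 2 ^ dg z 5 = p5
      clear * -
      omega
    have e2 : ni z 0 2 4 2 = 2 ^ dg z 1 + 2 ^ dg z 2 + 2 ^ dg z 3 + 2 ^ dg z 5 + 2 ^ 14 := by
      unfold ni Mk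
      generalize 2 ^ dg z 0 = p0
      generalize 2 ^ dg z 1 = p1
      generalize 2 ^ dg z 2 = p2
      generalize 2 ^ dg z 3 = p3
      generalize 2 ^ dg z 4 = p4
      generalize 2 ^ dg z 5 = p5
      clear * -
      omega
    have e4 : ni z 0 2 4 4 = 2 ^ dg z 1 + 2 ^ dg z 3 + 2 ^ dg z 4 + 2 ^ dg z 5 + 2 ^ 14 := by
      unfold ni Mk
      generalize 2 ^ dg z 0 = p0
      generalize 2 ^ dg z 1 = p1
      generalize 2 ^ dg z 2 = p2
      generalize 2 ^ dg z 3 = p3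
      generalize 2 ^ dg z 4 = p4
      generalize 2 ^ dg z 5 = p5
      clear * -
      omega
    rw [e0, e2, e4, Em_mi0 v hv, Em_mi2 v hv, Em_mi4 v hv,
      Em_five v (by omega) (by omega) (by omega) (by omega) (by omega),
      Em_five v (by omega) (by omega) (by omega) (by omega) (by omega),
      Em_five v (by omega) (by omega) (by omega) (by omega) (by omega)]
    exact key
  · have key := gp124 v (dg z 0) (dg z 1) (dg z 2) (dg z 3) (dg z 4) (dg z 5) 14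
    have e1 : ni z 1 2 4 1 = 2 ^ dg z 0 + 2 ^ dg z 1 + 2 ^ dg z 3 + 2 ^ dg z 5 + 2 ^ 14 := by
      unfold ni Mk
      generalize 2 ^ dg z 0 = p0
      generalize 2 ^ dg z 1 = p1
      generalize 2 ^ dg z 2 = p2
      generalize 2 ^ dg z 3 = p3
      generalize 2 ^ dg z 4 = p4
      generalize 2 ^ dg z 5 = p5
      clear * -
      omega
    have e2 : ni z 1 2 4 2 = 2 ^ dg z 0 + 2 ^ dg z 2 + 2 ^ dg z 3 + 2 ^ dg z 5 + 2 ^ 14 := by
      unfold ni Mk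
      generalize 2 ^ dg z 0 = p0
      generalize 2 ^ dg z 1 = p1
      generalize 2 ^ dg z 2 = p2
      generalize 2 ^ dg z 3 = p3
      generalize 2 ^ dg z 4 = p4
      generalize 2 ^ dg z 5 = p5
      clear * -
      omega
    have e4 : ni z 1 2 4 4 = 2 ^ dg z 0 + 2 ^ dg z 3 + 2 ^ dg z 4 + 2 ^ dg z 5 + 2 ^ 14 := by
      unfold ni Mk
      generalize 2 ^ dg z 0 = p0
      generalize 2 ^ dg z 1 = p1
      generalize 2 ^ dg z 2 = p2
      generalize 2 ^ dg z 3 = p3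
      generalize 2 ^ dg z 4 = p4
      generalize 2 ^ dg z 5 = p5
      clear * -
      omega
    rw [e1, e2, e4, Em_mi1 v hv, Em_mi2 v hv, Em_mi4 v hv,
      Em_five v (by omega) (by omega) (by omega) (by omega) (by omega),
      Em_five v (by omega) (by omega) (by omega) (by omega) (by omega),
      Em_five v (by omega) (by omega) (by omega) (by omega) (by omega)]
    exact key
  · have key := gp034 v (dg z 0) (dg z 1) (dg z 2) (dg z 3) (dg z 4) (dg z 5) 14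
    have e0 : ni z 0 3 4 0 = 2 ^ dg z 0 + 2 ^ dg z 1 + 2 ^ dg z 2 + 2 ^ dg z 5 + 2 ^ 14 := by
      unfold ni Mk
      generalize 2 ^ dg z 0 = p0
      generalize 2 ^ dg z 1 = p1
      generalize 2 ^ dg z 2 = p2
      generalize 2 ^ dg z 3 = p3
      generalize 2 ^ dg z 4 = p4
      generalize 2 ^ dg z 5 = p5
      clear * -
      omega
    have e3 : ni z 0 3 4 3 = 2 ^ dg z 1 + 2 ^ dg z 2 + 2 ^ dg z 3 + 2 ^ dg z 5 + 2 ^ 14 := by
      unfold ni Mk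
      generalize 2 ^ dg z 0 = p0
      generalize 2 ^ dg z 1 = p1
      generalize 2 ^ dg z 2 = p2
      generalize 2 ^ dg z 3 = p3
      generalize 2 ^ dg z 4 = p4
      generalize 2 ^ dg z 5 = p5
      clear * -
      omega
    have e4 : ni z 0 3 4 4 = 2 ^ dg z 1 + 2 ^ dg z 2 + 2 ^ dg z 4 + 2 ^ dg z 5 + 2 ^ 14 := by
      unfold ni Mk
      generalize 2 ^ dg z 0 = p0
      generalize 2 ^ dg z 1 = p1
      generalize 2 ^ dg z 2 = p2
      generalize 2 ^ dg z 3 = p3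
      generalize 2 ^ dg z 4 = p4
      generalize 2 ^ dg z 5 = p5
      clear * -
      omega
    rw [e0, e3, e4, Em_mi0 v hv, Em_mi3 v hv, Em_mi4 v hv,
      Em_five v (by omega) (by omega) (by omega) (by omega) (by omega),
      Em_five v (by omega) (by omega) (by omega) (by omega) (by omega),
      Em_five v (by omega) (by omega) (by omega) (by omega) (by omega)]
    exact key
  · have key := gp134 v (dg z 0) (dg z 1) (dg z 2) (dg z 3) (dg z 4) (dg z 5) 14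
    have e1 : ni z 1 3 4 1 = 2 ^ dg z 0 + 2 ^ dg z 1 + 2 ^ dg z 2 + 2 ^ dg z 5 + 2 ^ 14 := by
      unfold ni Mk
      generalize 2 ^ dg z 0 = p0
      generalize 2 ^ dg z 1 = p1
      generalize 2 ^ dg z 2 = p2
      generalize 2 ^ dg z 3 = p3
      generalize 2 ^ dg z 4 = p4
      generalize 2 ^ dg z 5 = p5
      clear * -
      omega
    have e3 : ni z 1 3 4 3 = 2 ^ dg z 0 + 2 ^ dg z 2 + 2 ^ dg z 3 + 2 ^ dg z 5 + 2 ^ 14 := by
      unfold ni Mk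
      generalize 2 ^ dg z 0 = p0
      generalize 2 ^ dg z 1 = p1
      generalize 2 ^ dg z 2 = p2
      generalize 2 ^ dg z 3 = p3
      generalize 2 ^ dg z 4 = p4
      generalize 2 ^ dg z 5 = p5
      clear * -
      omega
    have e4 : ni z 1 3 4 4 = 2 ^ dg z 0 + 2 ^ dg z 2 + 2 ^ dg z 4 + 2 ^ dg z 5 + 2 ^ 14 := by
      unfold ni Mk
      generalize 2 ^ dg z 0 = p0
      generalize 2 ^ dg z 1 = p1
      generalize 2 ^ dg z 2 = p2
      generalize 2 ^ dg z 3 = p3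
      generalize 2 ^ dg z 4 = p4
      generalize 2 ^ dg z 5 = p5
      clear * -
      omega
    rw [e1, e3, e4, Em_mi1 v hv, Em_mi3 v hv, Em_mi4 v hv,
      Em_five v (by omega) (by omega) (by omega) (by omega) (by omega),
      Em_five v (by omega) (by omega) (by omega) (by omega) (by omega),
      Em_five v (by omega) (by omega) (by omega) (by omega) (by omega)]
    exact key
  · have key := gp234 v (dg z 0) (dg z 1) (dg z 2) (dg z 3) (dg z 4) (dg z 5) 14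
    have e2 : ni z 2 3 4 2 = 2 ^ dg z 0 + 2 ^ dg z 1 + 2 ^ dg z 2 + 2 ^ dg z 5 + 2 ^ 14 := by
      unfold ni Mk
      generalize 2 ^ dg z 0 = p0
      generalize 2 ^ dg z 1 = p1
      generalize 2 ^ dg z 2 = p2
      generalize 2 ^ dg z 3 = p3
      generalize 2 ^ dg z 4 = p4
      generalize 2 ^ dg z 5 = p5
      clear * -
      omega
    have e3 : ni z 2 3 4 3 = 2 ^ dg z 0 + 2 ^ dg z 1 + 2 ^ dg z 3 + 2 ^ dg z 5 + 2 ^ 14 := by
      unfold ni Mk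
      generalize 2 ^ dg z 0 = p0
      generalize 2 ^ dg z 1 = p1
      generalize 2 ^ dg z 2 = p2
      generalize 2 ^ dg z 3 = p3
      generalize 2 ^ dg z 4 = p4
      generalize 2 ^ dg z 5 = p5
      clear * -
      omega
    have e4 : ni z 2 3 4 4 = 2 ^ dg z 0 + 2 ^ dg z 1 + 2 ^ dg z 4 + 2 ^ dg z 5 + 2 ^ 14 := by
      unfold ni Mk
      generalize 2 ^ dg z 0 = p0
      generalize 2 ^ dg z 1 = p1
      generalize 2 ^ dg z 2 = p2
      generalize 2 ^ dg z 3 = p3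
      generalize 2 ^ dg z 4 = p4
      generalize 2 ^ dg z 5 = p5
      clear * -
      omega
    rw [e2, e3, e4, Em_mi2 v hv, Em_mi3 v hv, Em_mi4 v hv,
      Em_five v (by omega) (by omega) (by omega) (by omega) (by omega),
      Em_five v (by omega) (by omega) (by omega) (by omega) (by omega),
      Em_five v (by omega) (by omega) (by omega) (by omega) (by omega)]
    exact key
  · have key := gp015 v (dg z 0) (dg z 1) (dg z 2) (dg z 3) (dg z 4) (dg z 5) 14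
    have e0 : ni z 0 1 5 0 = 2 ^ dg z 0 + 2 ^ dg z 2 + 2 ^ dg z 3 + 2 ^ dg z 4 + 2 ^ 14 := by
      unfold ni Mk
      generalize 2 ^ dg z 0 = p0
      generalize 2 ^ dg z 1 = p1
      generalize 2 ^ dg z 2 = p2
      generalize 2 ^ dg z 3 = p3
      generalize 2 ^ dg z 4 = p4
      generalize 2 ^ dg z 5 = p5
      clear * -
      omega
    have e1 : ni z 0 1 5 1 = 2 ^ dg z 1 + 2 ^ dg z 2 + 2 ^ dg z 3 + 2 ^ dg z 4 + 2 ^ 14 := by
      unfold ni Mk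
      generalize 2 ^ dg z 0 = p0
      generalize 2 ^ dg z 1 = p1
      generalize 2 ^ dg z 2 = p2
      generalize 2 ^ dg z 3 = p3
      generalize 2 ^ dg z 4 = p4
      generalize 2 ^ dg z 5 = p5
      clear * -
      omega
    have e5 : ni z 0 1 5 5 = 2 ^ dg z 2 + 2 ^ dg z 3 + 2 ^ dg z 4 + 2 ^ dg z 5 + 2 ^ 14 := by
      unfold ni Mk
      generalize 2 ^ dg z 0 = p0
      generalize 2 ^ dg z 1 = p1
      generalize 2 ^ dg z 2 = p2
      generalize 2 ^ dg z 3 = p3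
      generalize 2 ^ dg z 4 = p4
      generalize 2 ^ dg z 5 = p5
      clear * -
      omega
    rw [e0, e1, e5, Em_mi0 v hv, Em_mi1 v hv, Em_mi5 v hv,
      Em_five v (by omega) (by omega) (by omega) (by omega) (by omega),
      Em_five v (by omega) (by omega) (by omega) (by omega) (by omega),
      Em_five v (by omega) (by omega) (by omega) (by omega) (by omega)]
    exact key
  · have key := gp025 v (dg z 0) (dg z 1) (dg z 2) (dg z 3) (dg z 4) (dg z 5) 14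
    have e0 : ni z 0 2 5 0 = 2 ^ dg z 0 + 2 ^ dg z 1 + 2 ^ dg z 3 + 2 ^ dg z 4 + 2 ^ 14 := by
      unfold ni Mk
      generalize 2 ^ dg z 0 = p0
      generalize 2 ^ dg z 1 = p1
      generalize 2 ^ dg z 2 = p2
      generalize 2 ^ dg z 3 = p3
      generalize 2 ^ dg z 4 = p4
      generalize 2 ^ dg z 5 = p5
      clear * -
      omega
    have e2 : ni z 0 2 5 2 = 2 ^ dg z 1 + 2 ^ dg z 2 + 2 ^ dg z 3 + 2 ^ dg z 4 + 2 ^ 14 := by
      unfold ni Mk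
      generalize 2 ^ dg z 0 = p0
      generalize 2 ^ dg z 1 = p1
      generalize 2 ^ dg z 2 = p2
      generalize 2 ^ dg z 3 = p3
      generalize 2 ^ dg z 4 = p4
      generalize 2 ^ dg z 5 = p5
      clear * -
      omega
    have e5 : ni z 0 2 5 5 = 2 ^ dg z 1 + 2 ^ dg z 3 + 2 ^ dg z 4 + 2 ^ dg z 5 + 2 ^ 14 := by
      unfold ni Mk
      generalize 2 ^ dg z 0 = p0
      generalize 2 ^ dg z 1 = p1
      generalize 2 ^ dg z 2 = p2
      generalize 2 ^ dg z 3 = p3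
      generalize 2 ^ dg z 4 = p4
      generalize 2 ^ dg z 5 = p5
      clear * -
      omega
    rw [e0, e2, e5, Em_mi0 v hv, Em_mi2 v hv, Em_mi5 v hv,
      Em_five v (by omega) (by omega) (by omega) (by omega) (by omega),
      Em_five v (by omega) (by omega) (by omega) (by omega) (by omega),
      Em_five v (by omega) (by omega) (by omega) (by omega) (by omega)]
    exact key
  · have key := gp125 v (dg z 0) (dg z 1) (dg z 2) (dg z 3) (dg z 4) (dg z 5) 14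
    have e1 : ni z 1 2 5 1 = 2 ^ dg z 0 + 2 ^ dg z 1 + 2 ^ dg z 3 + 2 ^ dg z 4 + 2 ^ 14 := by
      unfold ni Mk
      generalize 2 ^ dg z 0 = p0
      generalize 2 ^ dg z 1 = p1
      generalize 2 ^ dg z 2 = p2
      generalize 2 ^ dg z 3 = p3
      generalize 2 ^ dg z 4 = p4
      generalize 2 ^ dg z 5 = p5
      clear * -
      omega
    have e2 : ni z 1 2 5 2 = 2 ^ dg z 0 + 2 ^ dg z 2 + 2 ^ dg z 3 + 2 ^ dg z 4 + 2 ^ 14 := by
      unfold ni Mk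
      generalize 2 ^ dg z 0 = p0
      generalize 2 ^ dg z 1 = p1
      generalize 2 ^ dg z 2 = p2
      generalize 2 ^ dg z 3 = p3
      generalize 2 ^ dg z 4 = p4
      generalize 2 ^ dg z 5 = p5
      clear * -
      omega
    have e5 : ni z 1 2 5 5 = 2 ^ dg z 0 + 2 ^ dg z 3 + 2 ^ dg z 4 + 2 ^ dg z 5 + 2 ^ 14 := by
      unfold ni Mk
      generalize 2 ^ dg z 0 = p0
      generalize 2 ^ dg z 1 = p1
      generalize 2 ^ dg z 2 = p2
      generalize 2 ^ dg z 3 = p3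
      generalize 2 ^ dg z 4 = p4
      generalize 2 ^ dg z 5 = p5
      clear * -
      omega
    rw [e1, e2, e5, Em_mi1 v hv, Em_mi2 v hv, Em_mi5 v hv,
      Em_five v (by omega) (by omega) (by omega) (by omega) (by omega),
      Em_five v (by omega) (by omega) (by omega) (by omega) (by omega),
      Em_five v (by omega) (by omega) (by omega) (by omega) (by omega)]
    exact key
  · have key := gp035 v (dg z 0) (dg z 1) (dg z 2) (dg z 3) (dg z 4) (dg z 5) 14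
    have e0 : ni z 0 3 5 0 = 2 ^ dg z 0 + 2 ^ dg z 1 + 2 ^ dg z 2 + 2 ^ dg z 4 + 2 ^ 14 := by
      unfold ni Mk
      generalize 2 ^ dg z 0 = p0
      generalize 2 ^ dg z 1 = p1
      generalize 2 ^ dg z 2 = p2
      generalize 2 ^ dg z 3 = p3
      generalize 2 ^ dg z 4 = p4
      generalize 2 ^ dg z 5 = p5
      clear * -
      omega
    have e3 : ni z 0 3 5 3 = 2 ^ dg z 1 + 2 ^ dg z 2 + 2 ^ dg z 3 + 2 ^ dg z 4 + 2 ^ 14 := by
      unfold ni Mk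
      generalize 2 ^ dg z 0 = p0
      generalize 2 ^ dg z 1 = p1
      generalize 2 ^ dg z 2 = p2
      generalize 2 ^ dg z 3 = p3
      generalize 2 ^ dg z 4 = p4
      generalize 2 ^ dg z 5 = p5
      clear * -
      omega
    have e5 : ni z 0 3 5 5 = 2 ^ dg z 1 + 2 ^ dg z 2 + 2 ^ dg z 4 + 2 ^ dg z 5 + 2 ^ 14 := by
      unfold ni Mk
      generalize 2 ^ dg z 0 = p0
      generalize 2 ^ dg z 1 = p1
      generalize 2 ^ dg z 2 = p2
      generalize 2 ^ dg z 3 = p3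
      generalize 2 ^ dg z 4 = p4
      generalize 2 ^ dg z 5 = p5
      clear * -
      omega
    rw [e0, e3, e5, Em_mi0 v hv, Em_mi3 v hv, Em_mi5 v hv,
      Em_five v (by omega) (by omega) (by omega) (by omega) (by omega),
      Em_five v (by omega) (by omega) (by omega) (by omega) (by omega),
      Em_five v (by omega) (by omega) (by omega) (by omega) (by omega)]
    exact key
  · have key := gp135 v (dg z 0) (dg z 1) (dg z 2) (dg z 3) (dg z 4) (dg z 5) 14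
    have e1 : ni z 1 3 5 1 = 2 ^ dg z 0 + 2 ^ dg z 1 + 2 ^ dg z 2 + 2 ^ dg z 4 + 2 ^ 14 := by
      unfold ni Mk
      generalize 2 ^ dg z 0 = p0
      generalize 2 ^ dg z 1 = p1
      generalize 2 ^ dg z 2 = p2
      generalize 2 ^ dg z 3 = p3
      generalize 2 ^ dg z 4 = p4
      generalize 2 ^ dg z 5 = p5
      clear * -
      omega
    have e3 : ni z 1 3 5 3 = 2 ^ dg z 0 + 2 ^ dg z 2 + 2 ^ dg z 3 + 2 ^ dg z 4 + 2 ^ 14 := by
      unfold ni Mk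
      generalize 2 ^ dg z 0 = p0
      generalize 2 ^ dg z 1 = p1
      generalize 2 ^ dg z 2 = p2
      generalize 2 ^ dg z 3 = p3
      generalize 2 ^ dg z 4 = p4
      generalize 2 ^ dg z 5 = p5
      clear * -
      omega
    have e5 : ni z 1 3 5 5 = 2 ^ dg z 0 + 2 ^ dg z 2 + 2 ^ dg z 4 + 2 ^ dg z 5 + 2 ^ 14 := by
      unfold ni Mk
      generalize 2 ^ dg z 0 = p0
      generalize 2 ^ dg z 1 = p1
      generalize 2 ^ dg z 2 = p2
      generalize 2 ^ dg z 3 = p3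
      generalize 2 ^ dg z 4 = p4
      generalize 2 ^ dg z 5 = p5
      clear * -
      omega
    rw [e1, e3, e5, Em_mi1 v hv, Em_mi3 v hv, Em_mi5 v hv,
      Em_five v (by omega) (by omega) (by omega) (by omega) (by omega),
      Em_five v (by omega) (by omega) (by omega) (by omega) (by omega),
      Em_five v (by omega) (by omega) (by omega) (by omega) (by omega)]
    exact key
  · have key := gp235 v (dg z 0) (dg z 1) (dg z 2) (dg z 3) (dg z 4) (dg z 5) 14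
    have e2 : ni z 2 3 5 2 = 2 ^ dg z 0 + 2 ^ dg z 1 + 2 ^ dg z 2 + 2 ^ dg z 4 + 2 ^ 14 := by
      unfold ni Mk
      generalize 2 ^ dg z 0 = p0
      generalize 2 ^ dg z 1 = p1
      generalize 2 ^ dg z 2 = p2
      generalize 2 ^ dg z 3 = p3
      generalize 2 ^ dg z 4 = p4
      generalize 2 ^ dg z 5 = p5
      clear * -
      omega
    have e3 : ni z 2 3 5 3 = 2 ^ dg z 0 + 2 ^ dg z 1 + 2 ^ dg z 3 + 2 ^ dg z 4 + 2 ^ 14 := by
      unfold ni Mk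
      generalize 2 ^ dg z 0 = p0
      generalize 2 ^ dg z 1 = p1
      generalize 2 ^ dg z 2 = p2
      generalize 2 ^ dg z 3 = p3
      generalize 2 ^ dg z 4 = p4
      generalize 2 ^ dg z 5 = p5
      clear * -
      omega
    have e5 : ni z 2 3 5 5 = 2 ^ dg z 0 + 2 ^ dg z 1 + 2 ^ dg z 4 + 2 ^ dg z 5 + 2 ^ 14 := by
      unfold ni Mk
      generalize 2 ^ dg z 0 = p0
      generalize 2 ^ dg z 1 = p1
      generalize 2 ^ dg z 2 = p2
      generalize 2 ^ dg z 3 = p3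
      generalize 2 ^ dg z 4 = p4
      generalize 2 ^ dg z 5 = p5
      clear * -
      omega
    rw [e2, e3, e5, Em_mi2 v hv, Em_mi3 v hv, Em_mi5 v hv,
      Em_five v (by omega) (by omega) (by omega) (by omega) (by omega),
      Em_five v (by omega) (by omega) (by omega) (by omega) (by omega),
      Em_five v (by omega) (by omega) (by omega) (by omega) (by omega)]
    exact key
  · have key := gp045 v (dg z 0) (dg z 1) (dg z 2) (dg z 3) (dg z 4) (dg z 5) 14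
    have e0 : ni z 0 4 5 0 = 2 ^ dg z 0 + 2 ^ dg z 1 + 2 ^ dg z 2 + 2 ^ dg z 3 + 2 ^ 14 := by
      unfold ni Mk
      generalize 2 ^ dg z 0 = p0
      generalize 2 ^ dg z 1 = p1
      generalize 2 ^ dg z 2 = p2
      generalize 2 ^ dg z 3 = p3
      generalize 2 ^ dg z 4 = p4
      generalize 2 ^ dg z 5 = p5
      clear * -
      omega
    have e4 : ni z 0 4 5 4 = 2 ^ dg z 1 + 2 ^ dg z 2 + 2 ^ dg z 3 + 2 ^ dg z 4 + 2 ^ 14 := by
      unfold ni Mk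
      generalize 2 ^ dg z 0 = p0
      generalize 2 ^ dg z 1 = p1
      generalize 2 ^ dg z 2 = p2
      generalize 2 ^ dg z 3 = p3
      generalize 2 ^ dg z 4 = p4
      generalize 2 ^ dg z 5 = p5
      clear * -
      omega
    have e5 : ni z 0 4 5 5 = 2 ^ dg z 1 + 2 ^ dg z 2 + 2 ^ dg z 3 + 2 ^ dg z 5 + 2 ^ 14 := by
      unfold ni Mk
      generalize 2 ^ dg z 0 = p0
      generalize 2 ^ dg z 1 = p1
      generalize 2 ^ dg z 2 = p2
      generalize 2 ^ dg z 3 = p3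
      generalize 2 ^ dg z 4 = p4
      generalize 2 ^ dg z 5 = p5
      clear * -
      omega
    rw [e0, e4, e5, Em_mi0 v hv, Em_mi4 v hv, Em_mi5 v hv,
      Em_five v (by omega) (by omega) (by omega) (by omega) (by omega),
      Em_five v (by omega) (by omega) (by omega) (by omega) (by omega),
      Em_five v (by omega) (by omega) (by omega) (by omega) (by omega)]
    exact key
  · have key := gp145 v (dg z 0) (dg z 1) (dg z 2) (dg z 3) (dg z 4) (dg z 5) 14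
    have e1 : ni z 1 4 5 1 = 2 ^ dg z 0 + 2 ^ dg z 1 + 2 ^ dg z 2 + 2 ^ dg z 3 + 2 ^ 14 := by
      unfold ni Mk
      generalize 2 ^ dg z 0 = p0
      generalize 2 ^ dg z 1 = p1
      generalize 2 ^ dg z 2 = p2
      generalize 2 ^ dg z 3 = p3
      generalize 2 ^ dg z 4 = p4
      generalize 2 ^ dg z 5 = p5
      clear * -
      omega
    have e4 : ni z 1 4 5 4 = 2 ^ dg z 0 + 2 ^ dg z 2 + 2 ^ dg z 3 + 2 ^ dg z 4 + 2 ^ 14 := by
      unfold ni Mk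
      generalize 2 ^ dg z 0 = p0
      generalize 2 ^ dg z 1 = p1
      generalize 2 ^ dg z 2 = p2
      generalize 2 ^ dg z 3 = p3
      generalize 2 ^ dg z 4 = p4
      generalize 2 ^ dg z 5 = p5
      clear * -
      omega
    have e5 : ni z 1 4 5 5 = 2 ^ dg z 0 + 2 ^ dg z 2 + 2 ^ dg z 3 + 2 ^ dg z 5 + 2 ^ 14 := by
      unfold ni Mk
      generalize 2 ^ dg z 0 = p0
      generalize 2 ^ dg z 1 = p1
      generalize 2 ^ dg z 2 = p2
      generalize 2 ^ dg z 3 = p3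
      generalize 2 ^ dg z 4 = p4
      generalize 2 ^ dg z 5 = p5
      clear * -
      omega
    rw [e1, e4, e5, Em_mi1 v hv, Em_mi4 v hv, Em_mi5 v hv,
      Em_five v (by omega) (by omega) (by omega) (by omega) (by omega),
      Em_five v (by omega) (by omega) (by omega) (by omega) (by omega),
      Em_five v (by omega) (by omega) (by omega) (by omega) (by omega)]
    exact key
  · have key := gp245 v (dg z 0) (dg z 1) (dg z 2) (dg z 3) (dg z 4) (dg z 5) 14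
    have e2 : ni z 2 4 5 2 = 2 ^ dg z 0 + 2 ^ dg z 1 + 2 ^ dg z 2 + 2 ^ dg z 3 + 2 ^ 14 := by
      unfold ni Mk
      generalize 2 ^ dg z 0 = p0
      generalize 2 ^ dg z 1 = p1
      generalize 2 ^ dg z 2 = p2
      generalize 2 ^ dg z 3 = p3
      generalize 2 ^ dg z 4 = p4
      generalize 2 ^ dg z 5 = p5
      clear * -
      omega
    have e4 : ni z 2 4 5 4 = 2 ^ dg z 0 + 2 ^ dg z 1 + 2 ^ dg z 3 + 2 ^ dg z 4 + 2 ^ 14 := by
      unfold ni Mk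
      generalize 2 ^ dg z 0 = p0
      generalize 2 ^ dg z 1 = p1
      generalize 2 ^ dg z 2 = p2
      generalize 2 ^ dg z 3 = p3
      generalize 2 ^ dg z 4 = p4
      generalize 2 ^ dg z 5 = p5
      clear * -
      omega
    have e5 : ni z 2 4 5 5 = 2 ^ dg z 0 + 2 ^ dg z 1 + 2 ^ dg z 3 + 2 ^ dg z 5 + 2 ^ 14 := by
      unfold ni Mk
      generalize 2 ^ dg z 0 = p0
      generalize 2 ^ dg z 1 = p1
      generalize 2 ^ dg z 2 = p2
      generalize 2 ^ dg z 3 = p3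
      generalize 2 ^ dg z 4 = p4
      generalize 2 ^ dg z 5 = p5
      clear * -
      omega
    rw [e2, e4, e5, Em_mi2 v hv, Em_mi4 v hv, Em_mi5 v hv,
      Em_five v (by omega) (by omega) (by omega) (by omega) (by omega),
      Em_five v (by omega) (by omega) (by omega) (by omega) (by omega),
      Em_five v (by omega) (by omega) (by omega) (by omega) (by omega)]
    exact key
  · have key := gp345 v (dg z 0) (dg z 1) (dg z 2) (dg z 3) (dg z 4) (dg z 5) 14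
    have e3 : ni z 3 4 5 3 = 2 ^ dg z 0 + 2 ^ dg z 1 + 2 ^ dg z 2 + 2 ^ dg z 3 + 2 ^ 14 := by
      unfold ni Mk
      generalize 2 ^ dg z 0 = p0
      generalize 2 ^ dg z 1 = p1
      generalize 2 ^ dg z 2 = p2
      generalize 2 ^ dg z 3 = p3
      generalize 2 ^ dg z 4 = p4
      generalize 2 ^ dg z 5 = p5
      clear * -
      omega
    have e4 : ni z 3 4 5 4 = 2 ^ dg z 0 + 2 ^ dg z 1 + 2 ^ dg z 2 + 2 ^ dg z 4 + 2 ^ 14 := by
      unfold ni Mk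
      generalize 2 ^ dg z 0 = p0
      generalize 2 ^ dg z 1 = p1
      generalize 2 ^ dg z 2 = p2
      generalize 2 ^ dg z 3 = p3
      generalize 2 ^ dg z 4 = p4
      generalize 2 ^ dg z 5 = p5
      clear * -
      omega
    have e5 : ni z 3 4 5 5 = 2 ^ dg z 0 + 2 ^ dg z 1 + 2 ^ dg z 2 + 2 ^ dg z 5 + 2 ^ 14 := by
      unfold ni Mk
      generalize 2 ^ dg z 0 = p0
      generalize 2 ^ dg z 1 = p1
      generalize 2 ^ dg z 2 = p2
      generalize 2 ^ dg z 3 = p3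
      generalize 2 ^ dg z 4 = p4
      generalize 2 ^ dg z 5 = p5
      clear * -
      omega
    rw [e3, e4, e5, Em_mi3 v hv, Em_mi4 v hv, Em_mi5 v hv,
      Em_five v (by omega) (by omega) (by omega) (by omega) (by omega),
      Em_five v (by omega) (by omega) (by omega) (by omega) (by omega),
      Em_five v (by omega) (by omega) (by omega) (by omega) (by omega)]
    exact key

end Pool.Agent.Lib.MP_1c334d_co
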